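import Mathlib

open Set Filter Metric Complex Topology

namespace Pool.Agent.H.MP_40a019_an

def U (ρ : ℝ) : Set ℂ := {w | ρ < ‖w‖}

lemma U_open (ρ : ℝ) : IsOpen (U ρ) := isOpen_lt continuous_const continuous_norm

lemma U_mono {ρ ρ' : ℝ} (h : ρ ≤ ρ') : U ρ' ⊆ U ρ := fun _ hw => lt_of_le_of_lt h hw

lemma ball_sub_U {ρ δ : ℝ} {t : ℂ} (ht : t ∈ U (ρ + δ)) : ball t δ ⊆ U ρ := by
  intro w hw
  have h1 : ρ + δ < ‖t‖ := ht
  have h2 : ‖w - t‖ < δ := by simpa [dist_eq_norm] using hw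
  have h3 : ‖t‖ ≤ ‖w‖ + ‖w - t‖ := by
    calc ‖t‖ = ‖w - (w - t)‖ := by ring_nf
      _ ≤ ‖w‖ + ‖w - t‖ := norm_sub_le _ _
  show ρ < ‖w‖
  linarith

lemma maps2 {g : ℂ → ℂ} {a : ℂ} {η K : ℝ} (hη : 0 < η) (hb : ∀ w ∈ ball a η, ‖g w‖ ≤ K) :
    MapsTo g (ball a η) (closedBall (g a) (2 * K)) := by
  intro w hw
  have h1 := hb w hw
  have h2 := hb a (mem_ball_self hη)
  rw [mem_closedBall, dist_eq_norm]
  linarith [norm_sub_le (g w) (g a)]

lemma ball_L1 {g : ℂ → ℂ} {a w : ℂ} {η K : ℝ} (hd : DifferentiableOn ℂ g (ball a η))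
    (hb : ∀ w ∈ ball a η, ‖g w‖ ≤ K) (hw : w ∈ ball a η) :
    ‖g w - g a‖ ≤ 2 * K / η * ‖w - a‖ := by
  have hη : 0 < η := pos_of_mem_ball hw
  simpa [dist_eq_norm] using dist_le_div_mul_dist_of_mapsTo_ball hd (maps2 hη hb) hw

lemma ball_D {g : ℂ → ℂ} {a : ℂ} {η K : ℝ} (hη : 0 < η) (hd : DifferentiableOn ℂ g (ball a η))
    (hb : ∀ w ∈ ball a η, ‖g w‖ ≤ K) : ‖deriv g a‖ ≤ 2 * K / η :=
  norm_deriv_le_div_of_mapsTo_ball hd (maps2 hη hb) hη

lemma ball_L2 {g : ℂ → ℂ} {a w : ℂ} {η K : ℝ} (hd : DifferentiableOn ℂ g (ball a η))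
    (hb : ∀ w ∈ ball a η, ‖g w‖ ≤ K) (hw : w ∈ ball a η) :
    ‖g w - g a - deriv g a * (w - a)‖ ≤ 4 * K / η ^ 2 * ‖w - a‖ ^ 2 := by
  have hη : 0 < η := pos_of_mem_ball hw
  have hq : DifferentiableOn ℂ (dslope g a) (ball a η) :=
    (differentiableOn_dslope (ball_mem_nhds a hη)).2 hd
  have hqb : ∀ w ∈ ball a η, ‖dslope g a w‖ ≤ 2 * K / η := fun w hw =>
    norm_dslope_le_div_of_mapsTo_ball hd (maps2 hη hb) hw
  have h1 := ball_L1 hq hqb hw
  have h2 : g w - g a - deriv g a * (w - a) = (w - a) * (dslope g a w - dslope g a a) := by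
    have := sub_smul_dslope g a w
    rw [smul_eq_mul] at this
    rw [dslope_same, mul_sub (w - a), this]; ring
  rw [h2, norm_mul]
  calc ‖w - a‖ * ‖dslope g a w - dslope g a a‖ ≤ ‖w - a‖ * (2 * (2 * K / η) / η * ‖w - a‖) :=
        mul_le_mul_of_nonneg_left h1 (norm_nonneg _)
    _ = 4 * K / η ^ 2 * ‖w - a‖ ^ 2 := by field_simp; ring

structure Sm (s : ℂ → ℂ) (ρ K : ℝ) : Prop where
  d : DifferentiableOn ℂ s (U ρ)
  b0 : ∀ ζ ∈ U ρ, ‖s ζ‖ ≤ K
  b1 : ∀ ζ ∈ U ρ, ‖deriv s ζ‖ ≤ K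
  l1 : ∀ ζ ∈ U ρ, ∀ t ∈ U ρ, ‖s ζ - s t‖ ≤ K * ‖ζ - t‖
  l2 : ∀ ζ ∈ U ρ, ∀ t ∈ U ρ, ‖s ζ - s t - deriv s t * (ζ - t)‖ ≤ K * ‖ζ - t‖ ^ 2
  l3 : ∀ ζ ∈ U ρ, ∀ t ∈ U ρ, ‖deriv s ζ - deriv s t‖ ≤ K * ‖ζ - t‖

lemma Sm.dAt {s : ℂ → ℂ} {ρ K : ℝ} (h : Sm s ρ K) {ζ : ℂ} (hζ : ζ ∈ U ρ) :
    DifferentiableAt ℂ s ζ := h.d.differentiableAt ((U_open ρ).mem_nhds hζ)

lemma Sm.zero (ρ : ℝ) : Sm (fun _ => 0) ρ 0 := by
  refine ⟨differentiableOn_const _, ?_, ?_, ?_, ?_, ?_⟩ <;> simp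

lemma Sm.mono {s : ℂ → ℂ} {ρ ρ' K K' : ℝ} (h : Sm s ρ K) (hρ : ρ ≤ ρ') (hK : K ≤ K') :
    Sm s ρ' K' := by
  have hU := U_mono hρ
  refine ⟨h.d.mono hU, fun ζ hζ => (h.b0 ζ (hU hζ)).trans hK,
    fun ζ hζ => (h.b1 ζ (hU hζ)).trans hK, fun ζ hζ t ht => (h.l1 ζ (hU hζ) t (hU ht)).trans ?_,
    fun ζ hζ t ht => (h.l2 ζ (hU hζ) t (hU ht)).trans ?_,
    fun ζ hζ t ht => (h.l3 ζ (hU hζ) t (hU ht)).trans ?_⟩ <;> gcongr

lemma Sm.add {s s' : ℂ → ℂ} {ρ K K' : ℝ} (h : Sm s ρ K) (h' : Sm s' ρ K') :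
    Sm (fun ζ => s ζ + s' ζ) ρ (K + K') := by
  have hd : ∀ ζ ∈ U ρ, deriv (fun ζ => s ζ + s' ζ) ζ = deriv s ζ + deriv s' ζ :=
    fun ζ hζ => deriv_fun_add (h.dAt hζ) (h'.dAt hζ)
  refine ⟨h.d.add h'.d, fun ζ hζ => ?_, fun ζ hζ => ?_, fun ζ hζ t ht => ?_,
    fun ζ hζ t ht => ?_, fun ζ hζ t ht => ?_⟩
  · linarith [norm_add_le (s ζ) (s' ζ), h.b0 ζ hζ, h'.b0 ζ hζ]
  · rw [hd ζ hζ]
    linarith [norm_add_le (deriv s ζ) (deriv s' ζ), h.b1 ζ hζ, h'.b1 ζ hζ]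
  · have e : s ζ + s' ζ - (s t + s' t) = (s ζ - s t) + (s' ζ - s' t) := by ring
    rw [e, add_mul]
    exact (norm_add_le _ _).trans (add_le_add (h.l1 ζ hζ t ht) (h'.l1 ζ hζ t ht))
  · rw [hd t ht]
    have e : s ζ + s' ζ - (s t + s' t) - (deriv s t + deriv s' t) * (ζ - t)
      = (s ζ - s t - deriv s t * (ζ - t)) + (s' ζ - s' t - deriv s' t * (ζ - t)) := by ring
    rw [e, add_mul]
    exact (norm_add_le _ _).trans (add_le_add (h.l2 ζ hζ t ht) (h'.l2 ζ hζ t ht))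
  · rw [hd t ht, hd ζ hζ]
    have e : deriv s ζ + deriv s' ζ - (deriv s t + deriv s' t)
      = (deriv s ζ - deriv s t) + (deriv s' ζ - deriv s' t) := by ring
    rw [e, add_mul]
    exact (norm_add_le _ _).trans (add_le_add (h.l3 ζ hζ t ht) (h'.l3 ζ hζ t ht))

lemma ext_L1 {s : ℂ → ℂ} {ρ δ K : ℝ} (hδ : 0 < δ) (hd : DifferentiableOn ℂ s (U ρ))
    (hb : ∀ ζ ∈ U ρ, ‖s ζ‖ ≤ K) {ζ t : ℂ} (hζ : ζ ∈ U ρ) (ht : t ∈ U (ρ + δ)) :
    ‖s ζ - s t‖ ≤ 2 * K / δ * ‖ζ - t‖ := by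
  have hs := ball_sub_U ht
  by_cases h : ζ ∈ ball t δ
  · exact ball_L1 (hd.mono hs) (fun w hw => hb w (hs hw)) h
  · have h1 : δ ≤ ‖ζ - t‖ := by simpa [dist_eq_norm] using h
    have h2 := hb ζ hζ
    have h3 := hb t (hs (mem_ball_self hδ))
    have hK : 0 ≤ K := (norm_nonneg _).trans h2
    calc ‖s ζ - s t‖ ≤ 2 * K := by linarith [norm_sub_le (s ζ) (s t)]
      _ = 2 * K / δ * δ := by field_simp
      _ ≤ 2 * K / δ * ‖ζ - t‖ := by gcongr

lemma Sm.of_bound {s : ℂ → ℂ} {ρ δ K : ℝ} (hδ : 0 < δ) (hδ1 : δ ≤ 1)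
    (hd : DifferentiableOn ℂ s (U ρ)) (hb : ∀ ζ ∈ U ρ, ‖s ζ‖ ≤ K) (hK : 0 ≤ K) :
    Sm s (ρ + δ) (16 * K / δ ^ 2) := by
  have hU : U (ρ + δ) ⊆ U ρ := U_mono (by linarith)
  have hδ2 : δ ^ 2 ≤ δ := by nlinarith
  have hp : 0 < δ ^ 2 := by positivity
  have e1 : 2 * K / δ ≤ 16 * K / δ ^ 2 := by
    rw [div_le_div_iff₀ hδ hp]; nlinarith [mul_nonneg hK hδ.le]
  have e0 : K ≤ 16 * K / δ ^ 2 := by
    rw [le_div_iff₀ hp]; nlinarith [mul_nonneg hK hδ.le]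
  have hD : ∀ t ∈ U (ρ + δ), ‖deriv s t‖ ≤ 2 * K / δ := fun t ht =>
    ball_D hδ (hd.mono (ball_sub_U ht)) (fun w hw => hb w (ball_sub_U ht hw))
  refine ⟨hd.mono hU, fun ζ hζ => (hb ζ (hU hζ)).trans e0, fun ζ hζ => (hD ζ hζ).trans e1,
    fun ζ hζ t ht => (ext_L1 hδ hd hb (hU hζ) ht).trans (by gcongr), fun ζ hζ t ht => ?_,
    fun ζ hζ t ht => ?_⟩
  · have hs := ball_sub_U ht
    have e4 : 4 * K / δ ^ 2 ≤ 16 * K / δ ^ 2 := by gcongr; norm_num
    by_cases h : ζ ∈ ball t δ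
    · exact (ball_L2 (hd.mono hs) (fun w hw => hb w (hs hw)) h).trans (by gcongr)
    · have h1 : δ ≤ ‖ζ - t‖ := by simpa [dist_eq_norm] using h
      have h2 := ext_L1 hδ hd hb (hU hζ) ht
      have h3 := hD t ht
      have h4 : ‖deriv s t * (ζ - t)‖ ≤ 2 * K / δ * ‖ζ - t‖ := by
        rw [norm_mul]; gcongr
      have h5 : 2 * K / δ * ‖ζ - t‖ ≤ 2 * K / δ ^ 2 * ‖ζ - t‖ ^ 2 := by
        have : 2 * K / δ * ‖ζ - t‖ = 2 * K / δ ^ 2 * (δ * ‖ζ - t‖) := by field_simp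
        rw [this, sq ‖ζ - t‖]; gcongr
      calc _ ≤ ‖s ζ - s t‖ + ‖deriv s t * (ζ - t)‖ := norm_sub_le _ _
        _ ≤ 2 * (2 * K / δ ^ 2 * ‖ζ - t‖ ^ 2) := by linarith
        _ = 4 * K / δ ^ 2 * ‖ζ - t‖ ^ 2 := by ring
        _ ≤ _ := by gcongr
  · have h2 : 0 < δ / 2 := by positivity
    have hd' : DifferentiableOn ℂ (deriv s) (U (ρ + δ / 2)) :=
      (hd.deriv (U_open ρ)).mono (U_mono (by linarith))
    have hb' : ∀ t ∈ U (ρ + δ / 2), ‖deriv s t‖ ≤ 2 * K / (δ / 2) := fun t ht =>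
      ball_D h2 (hd.mono (ball_sub_U ht)) (fun w hw => hb w (ball_sub_U ht hw))
    have := ext_L1 h2 hd' hb' (ζ := ζ) (t := t) (U_mono (by linarith) hζ)
      (by rwa [show ρ + δ / 2 + δ / 2 = ρ + δ by ring])
    refine this.trans (le_of_eq ?_)
    field_simp; ring

lemma circ_const {g : ℂ → ℂ} {ρ R R' : ℝ} (h0 : 0 ≤ ρ) (hR : ρ < R) (hR' : R ≤ R')
    (hd : DifferentiableOn ℂ g (U ρ)) : (∮ z in C(0, R'), g z) = ∮ z in C(0, R), g z := by
  have hs : closedBall (0 : ℂ) R' \ ball 0 R ⊆ U ρ := by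
    intro z hz
    have : ¬ ‖z‖ < R := by simpa using hz.2
    show ρ < ‖z‖
    linarith [not_lt.1 this]
  refine circleIntegral_eq_of_differentiable_on_annulus_off_countable (by linarith) hR'
    countable_empty (hd.continuousOn.mono hs) (fun z hz => ?_)
  refine hd.differentiableAt ((U_open ρ).mem_nhds (hs ⟨ball_subset_closedBall hz.1.1, ?_⟩))
  exact fun h => hz.1.2 (ball_subset_closedBall h)

lemma circ_zero {g : ℂ → ℂ} {ρ R : ℝ} (h0 : 0 ≤ ρ) (hR : ρ < R)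
    (hd : DifferentiableOn ℂ g (U ρ))
    (ht : Tendsto (fun w => w * g w) (Bornology.cobounded ℂ) (𝓝 0)) :
    (∮ z in C(0, R), g z) = 0 := by
  apply norm_le_zero_iff.1
  apply le_of_forall_pos_le_add
  intro e he
  have h1 : ∀ᶠ w in Bornology.cobounded ℂ, ‖w * g w‖ < e / 7 := by
    have := ht.norm
    rw [norm_zero] at this
    exact this.eventually (gt_mem_nhds (by positivity))
  obtain ⟨M, -, hM⟩ := (Filter.hasBasis_cobounded_norm.eventually_iff).1 h1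
  set R' := max R M with hR'
  have hp : 0 < R' := lt_of_lt_of_le (by linarith) (le_max_left _ _)
  rw [← circ_const h0 hR (le_max_left R M) hd]
  have h2 : ‖∮ z in C(0, R'), g z‖ ≤ 2 * Real.pi * R' * (e / 7 / R') := by
    refine circleIntegral.norm_integral_le_of_norm_le_const hp.le (fun z hz => ?_)
    have hz' : ‖z‖ = R' := by simpa using hz
    have := hM (x := z) (by show M ≤ ‖z‖; rw [hz']; exact le_max_right _ _)
    rw [norm_mul, hz'] at this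
    rw [le_div_iff₀ hp]; linarith
  have h3 : 2 * Real.pi * R' * (e / 7 / R') = 2 * Real.pi * (e / 7) := by field_simp
  have := Real.pi_lt_d2
  rw [h3] at h2
  nlinarith

lemma circ_cauchy {g : ℂ → ℂ} {ρ R : ℝ} {ζ : ℂ} (h0 : 0 ≤ ρ) (hR : ρ < R) (hζ : R < ‖ζ‖)
    (hd : DifferentiableOn ℂ g (U ρ))
    (ht : Tendsto (fun w => w * g w) (Bornology.cobounded ℂ) (𝓝 0)) :
    (∮ z in C(0, R), g z / (ζ - z)) = 2 * Real.pi * I * g ζ := by
  have hζU : ζ ∈ U ρ := lt_trans hR hζ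
  have hζ0 : ζ ≠ 0 := by
    intro h; rw [h, norm_zero] at hζ; linarith
  set q : ℂ → ℂ := fun z => dslope g ζ z + g ζ / z with hq
  have hqd : DifferentiableOn ℂ q (U ρ) := by
    refine ((differentiableOn_dslope ((U_open ρ).mem_nhds hζU)).2 hd).add ?_
    refine (differentiableOn_const _).div differentiableOn_id (fun z hz h => ?_)
    have : ρ < ‖z‖ := hz
    rw [h, norm_zero] at this; linarith
  have hinv : Tendsto (fun w : ℂ => w⁻¹) (Bornology.cobounded ℂ) (𝓝 0) := tendsto_inv₀_cobounded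
  have hqt : Tendsto (fun w => w * q w) (Bornology.cobounded ℂ) (𝓝 0) := by
    have h1 : Tendsto (fun w : ℂ => (w * g w * w⁻¹ - g ζ * ζ * w⁻¹) / (1 - ζ * w⁻¹))
        (Bornology.cobounded ℂ) (𝓝 ((0 * 0 - g ζ * ζ * 0) / (1 - ζ * 0))) :=
      ((ht.mul hinv).sub (hinv.const_mul _)).div (tendsto_const_nhds.sub (hinv.const_mul _))
        (by simp)
    simp only [mul_zero, sub_zero, zero_div] at h1
    refine h1.congr' ?_
    filter_upwards [Bornology.eventually_ne_cobounded ζ, Bornology.eventually_ne_cobounded 0]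
      with w h1 h2
    have h3 : w - ζ ≠ 0 := sub_ne_zero.2 h1
    simp only [hq, dslope_of_ne _ h1, slope_def_field]
    have h4 : 1 - ζ * w⁻¹ = (w - ζ) / w := by field_simp
    rw [h4]; field_simp; ring
  have h1 := circ_zero h0 hR hqd hqt
  have hRp : 0 < R := by linarith
  have hne : ∀ z ∈ sphere (0 : ℂ) R, z ≠ ζ ∧ z ≠ 0 := by
    intro z hz
    have hz' : ‖z‖ = R := by simpa using hz
    constructor
    · intro h; rw [h] at hz'; linarith
    · intro h; rw [h, norm_zero] at hz'; linarith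
  have hsU : sphere (0 : ℂ) R ⊆ U ρ := by
    intro z hz
    have hz' : ‖z‖ = R := by simpa using hz
    show ρ < ‖z‖
    linarith
  have i1 : CircleIntegrable q 0 R := (hqd.continuousOn.mono hsU).circleIntegrable hRp.le
  have c2 : ContinuousOn (fun z => g ζ / (ζ - z)) (closedBall (0 : ℂ) R) := by
    refine continuousOn_const.div (continuousOn_const.sub continuousOn_id) (fun z hz h => ?_)
    have hz' : ‖z‖ ≤ R := by simpa using hz
    rw [sub_eq_zero] at h; rw [← h] at hz'; linarith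
  have i2 : CircleIntegrable (fun z => g ζ / (ζ - z)) 0 R :=
    (c2.mono sphere_subset_closedBall).circleIntegrable hRp.le
  have i3 : CircleIntegrable (fun z : ℂ => (z - 0)⁻¹ • g ζ) 0 R := by
    refine ContinuousOn.circleIntegrable hRp.le (ContinuousOn.fun_smul ?_ continuousOn_const)
    exact (continuousOn_id.sub continuousOn_const).inv₀ (fun z hz => by simpa using (hne z hz).2)
  have h2 : (∮ z in C(0, R), g ζ / (ζ - z)) = 0 := by
    refine circleIntegral_eq_zero_of_differentiable_on_off_countable hRp.le countable_empty c2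
      (fun z hz => ?_)
    refine (differentiableAt_const _).div ((differentiableAt_const _).sub differentiableAt_id) ?_
    intro h
    have hz' : ‖z‖ < R := by simpa using hz.1
    rw [sub_eq_zero] at h; rw [← h] at hz'; linarith
  have h3 : (∮ z in C(0, R), (z - 0)⁻¹ • g ζ) = (2 * Real.pi * I) • g ζ := by
    rw [circleIntegral.integral_smul_const, circleIntegral.integral_sub_inv_of_mem_ball
      (mem_ball_self hRp)]
  have h4 : (∮ z in C(0, R), g z / (ζ - z))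
      = ∮ z in C(0, R), ((z - 0)⁻¹ • g ζ - q z) + g ζ / (ζ - z) := by
    refine circleIntegral.integral_congr hRp.le (fun z hz => ?_)
    obtain ⟨h5, h6⟩ := hne z hz
    have h7 : z - ζ ≠ 0 := sub_ne_zero.2 h5
    have h8 : ζ - z ≠ 0 := sub_ne_zero.2 h5.symm
    simp only [hq, dslope_of_ne _ h5, slope_def_field, smul_eq_mul, sub_zero]
    field_simp; ring
  have i4 : CircleIntegrable (fun z : ℂ => (z - 0)⁻¹ • g ζ - q z) 0 R := i3.sub i1
  rw [h4, circleIntegral.integral_add i4 i2, circleIntegral.integral_sub i3 i1, h1, h2, h3]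
  simp

lemma circ_eq (g : ℂ → ℂ) (R : ℝ) : (∮ z in C(0, R), g z) = 2 * Real.pi * I *
    ∫ θ in (0 : ℝ)..2 * Real.pi, g (circleMap 0 R θ) * circleMap 0 R θ / (2 * Real.pi) := by
  rw [circleIntegral, ← intervalIntegral.integral_const_mul]
  refine intervalIntegral.integral_congr (fun θ _ => ?_)
  have : (Real.pi : ℂ) ≠ 0 := ofReal_ne_zero.2 Real.pi_ne_zero
  simp only [deriv_circleMap, smul_eq_mul]
  field_simp

/-- kernel integral -/
noncomputable def ker (c p : ℝ → ℂ) (a b : ℝ) (w : ℂ) : ℂ := ∫ θ in a..b, c θ / (w - p θ)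

lemma ker_int {c p : ℝ → ℂ} (hc : Continuous c) (hp : Continuous p) {a b : ℝ} {w : ℂ}
    (h : ∀ θ ∈ uIcc a b, w ≠ p θ) :
    IntervalIntegrable (fun θ => c θ / (w - p θ)) MeasureTheory.volume a b :=
  (hc.continuousOn.div (continuousOn_const.sub hp.continuousOn)
    (fun θ hθ => sub_ne_zero.2 (h θ hθ))).intervalIntegrable

lemma ker_bound {c p : ℝ → ℂ} {a b M r : ℝ} {w : ℂ} (hr : 0 < r)
    (hc : ∀ θ ∈ uIcc a b, ‖c θ‖ ≤ M) (h : ∀ θ ∈ uIcc a b, r ≤ ‖w - p θ‖) :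
    ‖ker c p a b w‖ ≤ M / r * |b - a| := by
  refine intervalIntegral.norm_integral_le_of_norm_le_const (fun θ hθ => ?_)
  have hθ' := uIoc_subset_uIcc hθ
  have hM : 0 ≤ M := (norm_nonneg _).trans (hc θ hθ')
  rw [norm_div]
  exact div_le_div₀ hM (hc θ hθ') hr (h θ hθ')

lemma ker_diff {c p : ℝ → ℂ} (hc : Continuous c) (hp : Continuous p) {a b M r : ℝ} {w : ℂ}
    (hr : 0 < r) (hM : ∀ θ ∈ uIcc a b, ‖c θ‖ ≤ M) (h : ∀ θ ∈ uIcc a b, r ≤ ‖w - p θ‖) :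
    DifferentiableAt ℂ (ker c p a b) w := by
  have hn : ∀ x ∈ ball w (r / 2), ∀ θ ∈ uIcc a b, r / 2 ≤ ‖x - p θ‖ := by
    intro x hx θ hθ
    have h1 : ‖x - w‖ < r / 2 := by simpa [dist_eq_norm] using hx
    have h2 := h θ hθ
    have h3 : ‖w - p θ‖ ≤ ‖x - p θ‖ + ‖x - w‖ := by
      calc ‖w - p θ‖ = ‖(x - p θ) - (x - w)‖ := by ring_nf
        _ ≤ _ := norm_sub_le _ _
    linarith
  have hne : ∀ x ∈ ball w (r / 2), ∀ θ ∈ uIcc a b, x ≠ p θ := by
    intro x hx θ hθ e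
    have := hn x hx θ hθ
    rw [e, sub_self, norm_zero] at this; linarith
  have hb : ball w (r / 2) ∈ 𝓝 w := ball_mem_nhds _ (by positivity)
  refine (intervalIntegral.hasDerivAt_integral_of_dominated_loc_of_deriv_le
    (F := fun x θ => c θ / (x - p θ)) (F' := fun x θ => - c θ / (x - p θ) ^ 2)
    (bound := fun _ => M / (r / 2) ^ 2) hb ?_ (ker_int hc hp (hne w (mem_of_mem_nhds hb))) ?_
    ?_ intervalIntegrable_const ?_).2.differentiableAt
  · filter_upwards with x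
    exact (hc.measurable.div (measurable_const.sub hp.measurable)).aestronglyMeasurable
  · exact (hc.measurable.neg.div
      ((measurable_const.sub hp.measurable).pow_const 2)).aestronglyMeasurable
  · filter_upwards with θ hθ x hx
    have hθ' := uIoc_subset_uIcc hθ
    have hM0 : 0 ≤ M := (norm_nonneg _).trans (hM θ hθ')
    rw [norm_div, norm_neg, norm_pow]
    exact div_le_div₀ hM0 (hM θ hθ') (by positivity)
      (pow_le_pow_left₀ (by positivity) (hn x hx θ hθ') 2)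
  · filter_upwards with θ hθ x hx
    have hθ' := uIoc_subset_uIcc hθ
    have h0 : x - p θ ≠ 0 := sub_ne_zero.2 (hne x hx θ hθ')
    have := (hasDerivAt_const x (c θ)).fun_div ((hasDerivAt_id' x).sub_const (p θ)) h0
    exact this.congr_deriv (by ring)

lemma ker_tend {c p : ℝ → ℂ} (hc : Continuous c) (hp : Continuous p) {a b M : ℝ}
    (hM : ∀ θ ∈ uIcc a b, ‖c θ‖ ≤ M) (h : ∀ θ ∈ uIcc a b, ‖p θ‖ ≤ 2) :
    Tendsto (fun w => w * ker c p a b w) (Bornology.cobounded ℂ) (𝓝 (∫ θ in a..b, c θ)) := by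
  rw [tendsto_iff_norm_sub_tendsto_zero]
  have hinv : Tendsto (fun w : ℂ => 4 * M * |b - a| * ‖w⁻¹‖) (Bornology.cobounded ℂ) (𝓝 0) := by
    have := (tendsto_inv₀_cobounded (α := ℂ)).norm.const_mul (4 * M * |b - a|)
    simpa using this
  refine squeeze_zero' (Eventually.of_forall fun _ => norm_nonneg _) ?_ hinv
  filter_upwards [eventually_cobounded_le_norm (E := ℂ) 4] with w hw
  have hn : ∀ θ ∈ uIcc a b, ‖w‖ / 2 ≤ ‖w - p θ‖ := by
    intro θ hθ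
    linarith [h θ hθ, norm_sub_norm_le w (p θ)]
  have hne : ∀ θ ∈ uIcc a b, w ≠ p θ := by
    intro θ hθ e
    have := hn θ hθ
    rw [e, sub_self, norm_zero] at this; rw [e] at hw; linarith
  have e : w * ker c p a b w - ∫ θ in a..b, c θ = ker (fun θ => c θ * p θ) p a b w := by
    unfold ker
    rw [← intervalIntegral.integral_const_mul, ← intervalIntegral.integral_sub
      ((ker_int hc hp hne).const_mul w) (hc.intervalIntegrable a b)]
    refine intervalIntegral.integral_congr (fun θ hθ => ?_)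
    have h0 : w - p θ ≠ 0 := sub_ne_zero.2 (hne θ hθ)
    simp only
    field_simp; ring
  rw [e]
  have hw0 : 0 < ‖w‖ := by linarith
  refine (ker_bound (M := M * 2) (by positivity) (fun θ hθ => ?_) hn).trans (le_of_eq ?_)
  · rw [norm_mul]
    exact mul_le_mul (hM θ hθ) (h θ hθ) (norm_nonneg _) ((norm_nonneg _).trans (hM θ hθ))
  · rw [norm_inv]; field_simp; ring

end Pool.Agent.H.MP_40a019_an
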