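import Pool.Agent.H.MP_40a019_an.A

open Set Filter Metric Complex Topology

namespace Pool.Agent.H.MP_40a019_an

noncomputable def th (j : ℕ) : ℝ := 2 * Real.pi * j / 63

noncomputable def P (j : ℕ) : ℂ := circleMap 0 1 (th j)

noncomputable def A (ψ : ℕ → ℂ → ℂ) : ℕ → ℂ → ℂ
  | 0, ζ => ζ
  | j + 1, ζ => A ψ j ζ + ψ j (A ψ j ζ)

noncomputable def B (ψ : ℕ → ℂ → ℂ) : ℕ → ℂ → ℂ
  | 0, ζ => ζ
  | j + 1, ζ => B ψ j ζ - ψ j (P j - B ψ j ζ)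

def Far (j : ℕ) : Set ℂ := {w | 1 / 2 < ‖w - P j‖}

lemma Far_open (j : ℕ) : IsOpen (Far j) :=
  isOpen_lt continuous_const (continuous_id.sub continuous_const).norm

lemma norm_P (j : ℕ) : ‖P j‖ = 1 := by simp [P]

lemma far_ball {j : ℕ} {b ζ : ℂ} (hζ : ζ ∈ U 1) (hb : ‖b - ζ‖ ≤ 1 / 10) :
    ball (P j - b) (3 / 10) ⊆ Far j := by
  intro w hw
  have h1 : ‖w - (P j - b)‖ < 3 / 10 := by simpa [dist_eq_norm] using hw
  have h2 : (1 : ℝ) < ‖ζ‖ := hζ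
  have h3 : ‖ζ‖ ≤ ‖w - (P j - b)‖ + ‖w - P j‖ + ‖b - ζ‖ := by
    calc ‖ζ‖ = ‖(w - (P j - b)) - (w - P j) - (b - ζ)‖ := by ring_nf
      _ ≤ ‖(w - (P j - b)) - (w - P j)‖ + ‖b - ζ‖ := norm_sub_le _ _
      _ ≤ _ := by gcongr; exact norm_sub_le _ _
  show 1 / 2 < ‖w - P j‖
  linarith

lemma B_near {ψ : ℕ → ℂ → ℂ} {κ : ℝ} (hb : ∀ j < 63, ∀ w ∈ Far j, ‖ψ j w‖ ≤ κ)
    (h0 : 0 ≤ κ) (hκ : κ ≤ 1 / 1000) {ζ : ℂ} (hζ : ζ ∈ U 1) :
    ∀ j ≤ 63, ‖B ψ j ζ - ζ‖ ≤ j * κ := by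
  intro j
  induction j with
  | zero => intro _; simp [B]
  | succ j ih =>
    intro hj
    have h1 := ih (by omega)
    have hj' : (j : ℝ) ≤ 63 := by exact_mod_cast (by omega : j ≤ 63)
    have h2 : ‖B ψ j ζ - ζ‖ ≤ 1 / 10 := by nlinarith
    have h3 := hb j (by omega) _ (far_ball (j := j) hζ h2 (mem_ball_self (by norm_num)))
    have e : B ψ (j + 1) ζ - ζ = (B ψ j ζ - ζ) - ψ j (P j - B ψ j ζ) := by simp only [B]; ring
    rw [e]; push_cast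
    linarith [norm_sub_le (B ψ j ζ - ζ) (ψ j (P j - B ψ j ζ))]

lemma B_near' {ψ : ℕ → ℂ → ℂ} {κ : ℝ} (hb : ∀ j < 63, ∀ w ∈ Far j, ‖ψ j w‖ ≤ κ)
    (h0 : 0 ≤ κ) (hκ : κ ≤ 1 / 1000) {ζ : ℂ} (hζ : ζ ∈ U 1) {j : ℕ} (hj : j ≤ 63) :
    ‖B ψ j ζ - ζ‖ ≤ 1 / 10 := by
  have h1 := B_near hb h0 hκ hζ j hj
  have hj' : (j : ℝ) ≤ 63 := by exact_mod_cast hj
  nlinarith

lemma B_diff {ψ : ℕ → ℂ → ℂ} {κ : ℝ} (hb : ∀ j < 63, ∀ w ∈ Far j, ‖ψ j w‖ ≤ κ)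
    (h0 : 0 ≤ κ) (hκ : κ ≤ 1 / 1000) (hd : ∀ j < 63, DifferentiableOn ℂ (ψ j) (Far j)) :
    ∀ j ≤ 63, DifferentiableOn ℂ (B ψ j) (U 1) := by
  intro j
  induction j with
  | zero => intro _; exact differentiableOn_id
  | succ j ih =>
    intro hj
    have h1 := ih (by omega)
    have h2 : DifferentiableOn ℂ (fun ζ => ψ j (P j - B ψ j ζ)) (U 1) :=
      (hd j (by omega)).comp ((differentiableOn_const _).sub h1) (fun ζ hζ =>
        far_ball hζ (B_near' hb h0 hκ hζ (by omega)) (mem_ball_self (by norm_num)))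
    exact h1.sub h2

lemma tend_ratio {X : ℂ → ℂ} {s : ℂ} {C : ℝ}
    (h : ∀ᶠ ζ in Bornology.cobounded ℂ, ‖X ζ - s * ζ‖ ≤ C) :
    Tendsto (fun ζ => X ζ / ζ) (Bornology.cobounded ℂ) (𝓝 s) := by
  rw [tendsto_iff_norm_sub_tendsto_zero]
  have hinv : Tendsto (fun w : ℂ => C * ‖w⁻¹‖) (Bornology.cobounded ℂ) (𝓝 0) := by
    simpa using (tendsto_inv₀_cobounded (α := ℂ)).norm.const_mul C
  refine squeeze_zero' (Eventually.of_forall fun _ => norm_nonneg _) ?_ hinv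
  filter_upwards [h, Bornology.eventually_ne_cobounded 0] with ζ h1 h2
  have e : X ζ / ζ - s = (X ζ - s * ζ) * ζ⁻¹ := by field_simp
  rw [e, norm_mul]; gcongr

lemma tend_cob {X : ℂ → ℂ} {s : ℂ} (hs : s ≠ 0)
    (hX : Tendsto (fun ζ => X ζ / ζ) (Bornology.cobounded ℂ) (𝓝 s)) :
    Tendsto X (Bornology.cobounded ℂ) (Bornology.cobounded ℂ) := by
  rw [← tendsto_norm_atTop_iff_cobounded]
  have h1 := hX.norm.pos_mul_atTop (norm_pos_iff.2 hs) tendsto_norm_cobounded_atTop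
  refine h1.congr' ?_
  filter_upwards [Bornology.eventually_ne_cobounded 0] with ζ h2
  rw [← norm_mul]; congr 1; field_simp

lemma tend_comp {g X : ℂ → ℂ} {m s : ℂ} (hs : s ≠ 0)
    (hg : Tendsto (fun w => w * g w) (Bornology.cobounded ℂ) (𝓝 m))
    (hX : Tendsto (fun ζ => X ζ / ζ) (Bornology.cobounded ℂ) (𝓝 s)) :
    Tendsto (fun ζ => ζ * g (X ζ)) (Bornology.cobounded ℂ) (𝓝 (m / s)) := by
  have h1 := (hg.comp (tend_cob hs hX)).div hX hs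
  refine h1.congr' ?_
  filter_upwards [Bornology.eventually_ne_cobounded 0,
    (tend_cob hs hX).eventually (Bornology.eventually_ne_cobounded 0)] with ζ h2 h3
  simp only [Function.comp, Pi.div_apply]
  field_simp

lemma ev_U (ρ : ℝ) : ∀ᶠ ζ in Bornology.cobounded ℂ, ζ ∈ U ρ := by
  filter_upwards [eventually_cobounded_le_norm (E := ℂ) (ρ + 1)] with ζ h
  show ρ < ‖ζ‖
  linarith

lemma AB_tend {ψ : ℕ → ℂ → ℂ} {κ ρ : ℝ} (hb : ∀ j < 63, ∀ w ∈ Far j, ‖ψ j w‖ ≤ κ)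
    (h0 : 0 ≤ κ) (hκ : κ ≤ 1 / 1000) (hA : ∀ j ≤ 63, ∀ ζ ∈ U ρ, ‖A ψ j ζ - ζ‖ ≤ κ)
    (ht : ∀ j < 63, ∃ m, Tendsto (fun w => w * ψ j w) (Bornology.cobounded ℂ) (𝓝 m)) :
    ∀ j ≤ 63, Tendsto (fun ζ => ζ * (B ψ j ζ - A ψ j ζ)) (Bornology.cobounded ℂ) (𝓝 0) := by
  intro j
  induction j with
  | zero => intro _; simp [A, B]
  | succ j ih =>
    intro hj
    obtain ⟨m, hm⟩ := ht j (by omega)
    have h1 : Tendsto (fun ζ => A ψ j ζ / ζ) (Bornology.cobounded ℂ) (𝓝 1) := by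
      refine tend_ratio (C := κ) ?_
      filter_upwards [ev_U ρ] with ζ hζ
      simpa using hA j (by omega) ζ hζ
    have h2 : Tendsto (fun ζ => (P j - B ψ j ζ) / ζ) (Bornology.cobounded ℂ) (𝓝 (-1)) := by
      refine tend_ratio (C := 2) ?_
      filter_upwards [ev_U 1] with ζ hζ
      have h3 := B_near' hb h0 hκ hζ (j := j) (by omega)
      have e : P j - B ψ j ζ - -1 * ζ = P j - (B ψ j ζ - ζ) := by ring
      rw [e]
      linarith [norm_sub_le (P j) (B ψ j ζ - ζ), norm_P j]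
    have h3 := ((ih (by omega)).sub (tend_comp (by norm_num) hm h2)).sub
      (tend_comp one_ne_zero hm h1)
    have e : (0 : ℂ) - m / -1 - m / 1 = 0 := by ring
    rw [e] at h3
    refine h3.congr (fun ζ => ?_)
    simp only [A, B]; ring

lemma chainB {ψ d : ℕ → ℂ → ℂ} {κ ε : ℝ} {ζ : ℂ} (hζ : ζ ∈ U 1)
    (hb : ∀ j < 63, ∀ w ∈ Far j, ‖ψ j w‖ ≤ κ)
    (hd : ∀ j < 63, DifferentiableOn ℂ (ψ j) (Far j))
    (hdb : ∀ j < 63, ∀ w ∈ Far j, ‖d j w‖ ≤ 8 / 100 * ε)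
    (h0 : 0 ≤ κ) (hκ : κ ≤ 1 / 10000) (e0 : 0 ≤ ε) (hε : ε ≤ 1 / 10000) :
    ∀ j ≤ 63, ‖B (fun j w => ψ j w + d j w) j ζ - B ψ j ζ‖ ≤ j * (9 / 100 * ε) ∧
      ‖B (fun j w => ψ j w + d j w) j ζ - B ψ j ζ + ∑ i ∈ Finset.range j,
        d i (P i - B (fun j w => ψ j w + d j w) i ζ)‖ ≤ j * (40 * κ * ε) := by
  have hb' : ∀ j < 63, ∀ w ∈ Far j, ‖ψ j w + d j w‖ ≤ κ + 8 / 100 * ε := fun j hj w hw =>
    (norm_add_le _ _).trans (add_le_add (hb j hj w hw) (hdb j hj w hw))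
  intro j
  induction j with
  | zero => intro _; simp [B]
  | succ j ih =>
    intro hj
    obtain ⟨h1, h2⟩ := ih (by omega)
    have hj' : (j : ℝ) ≤ 63 := by exact_mod_cast (by omega : j ≤ 63)
    set b' := B (fun j w => ψ j w + d j w) j ζ with hb'def
    set b := B ψ j ζ with hbdef
    have n1 : ‖b - ζ‖ ≤ 1 / 10 := B_near' hb h0 (by linarith) hζ (by omega)
    have n2 : ‖b' - ζ‖ ≤ 1 / 10 :=
      B_near' (ψ := fun j w => ψ j w + d j w) hb' (by positivity) (by linarith) hζ (by omega)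
    have k6 : ‖b' - b‖ ≤ 6 * ε := by nlinarith
    have hs := far_ball (j := j) hζ n1
    have hm : P j - b' ∈ ball (P j - b) (3 / 10) := by
      rw [mem_ball, dist_eq_norm, show P j - b' - (P j - b) = -(b' - b) by ring, norm_neg]
      linarith
    have l1 := ball_L1 ((hd j (by omega)).mono hs) (fun w hw => hb j (by omega) w (hs hw)) hm
    rw [show P j - b' - (P j - b) = -(b' - b) by ring, norm_neg] at l1
    have l2 : ‖ψ j (P j - b') - ψ j (P j - b)‖ ≤ 40 * κ * ε := by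
      refine l1.trans ?_
      calc 2 * κ / (3 / 10) * ‖b' - b‖ ≤ 2 * κ / (3 / 10) * (6 * ε) := by gcongr
        _ = 40 * κ * ε := by ring
    have l3 := hdb j (by omega) _ (far_ball (j := j) hζ n2 (mem_ball_self (by norm_num)))
    have l4 : 40 * κ * ε ≤ 1 / 100 * ε := by nlinarith
    constructor
    · have e : B (fun j w => ψ j w + d j w) (j + 1) ζ - B ψ (j + 1) ζ
        = (b' - b) - (ψ j (P j - b') - ψ j (P j - b)) - d j (P j - b') := by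
        simp only [B, ← hb'def, ← hbdef]; ring
      rw [e]; push_cast
      linarith [norm_sub_le ((b' - b) - (ψ j (P j - b') - ψ j (P j - b))) (d j (P j - b')),
        norm_sub_le (b' - b) (ψ j (P j - b') - ψ j (P j - b))]
    · rw [Finset.sum_range_succ]
      set S := ∑ i ∈ Finset.range j, d i (P i - B (fun j w => ψ j w + d j w) i ζ)
      have e : B (fun j w => ψ j w + d j w) (j + 1) ζ - B ψ (j + 1) ζ + (S + d j (P j - b'))
        = (b' - b + S) - (ψ j (P j - b') - ψ j (P j - b)) := by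
        simp only [B, ← hb'def, ← hbdef]; ring
      rw [e]; push_cast
      linarith [norm_sub_le (b' - b + S) (ψ j (P j - b') - ψ j (P j - b))]

lemma near_one {a : ℂ} {κ : ℝ} (h : ‖a - 1‖ ≤ κ) : 1 - κ ≤ ‖a‖ ∧ ‖a‖ ≤ 1 + κ := by
  have h1 := norm_sub_norm_le a 1
  have h2 := norm_sub_norm_le 1 a
  rw [norm_sub_rev] at h2
  rw [norm_one] at h1 h2
  constructor <;> linarith

lemma chainA {ψ d : ℕ → ℂ → ℂ} {κ δ D : ℝ} {ζ : ℂ} {a : ℕ → ℂ}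
    (hψ : ∀ j < 63, DifferentiableOn ℂ (ψ j) (ball (A ψ j ζ) (δ / 2)))
    (hψb : ∀ j < 63, ∀ w ∈ ball (A ψ j ζ) (δ / 2), ‖ψ j w‖ ≤ κ)
    (hd : ∀ j < 63, DifferentiableOn ℂ (d j) (ball (A ψ j ζ) (δ / 2)))
    (hdb : ∀ j < 63, ∀ w ∈ ball (A ψ j ζ) (δ / 2), ‖d j w‖ ≤ D / 10)
    (ha : ∀ j < 63, a (j + 1) = (1 + deriv (ψ j) (A ψ j ζ)) * a j)
    (hab : ∀ j ≤ 63, ‖a j - 1‖ ≤ κ)
    (hκ : κ ≤ 1 / 1000) (hδ : 0 < δ) (hδ1 : δ ≤ 1) (D0 : 0 ≤ D)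
    (hD : 500 * D ≤ δ ^ 2) :
    ∀ j ≤ 63, ‖A (fun j w => ψ j w + d j w) j ζ - A ψ j ζ‖ ≤ 10 * D ∧
      ‖(A (fun j w => ψ j w + d j w) j ζ - A ψ j ζ) / a j‖ ≤ j * (14 / 100 * D) ∧
      ‖(A (fun j w => ψ j w + d j w) j ζ - A ψ j ζ) / a j - ∑ i ∈ Finset.range j,
        d i (A ψ i ζ) / a (i + 1)‖ ≤ j * (11 * D ^ 2 / δ ^ 2) := by
  have hp : 0 < δ ^ 2 := by positivity
  have hQ : D ^ 2 / δ ^ 2 ≤ D / 500 := by
    rw [div_le_div_iff₀ hp (by norm_num)]; nlinarith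
  have hQ0 : 0 ≤ D ^ 2 / δ ^ 2 := by positivity
  intro j
  induction j with
  | zero => intro _; simp [A]; positivity
  | succ j ih =>
    intro hj
    obtain ⟨h1, h2, h3⟩ := ih (by omega)
    have hj' : (j : ℝ) ≤ 62 := by exact_mod_cast (by omega : j ≤ 62)
    set x' := A (fun j w => ψ j w + d j w) j ζ with hx'
    set x := A ψ j ζ with hx
    obtain ⟨a1, a2⟩ := near_one (hab j (by omega))
    obtain ⟨a3, a4⟩ := near_one (hab (j + 1) hj)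
    have aj : a j ≠ 0 := norm_pos_iff.1 (by linarith)
    have aj1 : a (j + 1) ≠ 0 := norm_pos_iff.1 (by linarith)
    have hm : x' ∈ ball x (δ / 2) := by
      rw [mem_ball, dist_eq_norm]; nlinarith
    have l1 := ball_L2 (hψ j (by omega)) (hψb j (by omega)) hm
    have l2 := ball_L1 (hd j (by omega)) (hdb j (by omega)) hm
    have l3 := hdb j (by omega) x (mem_ball_self (by positivity))
    have l1' : ‖ψ j x' - ψ j x - deriv (ψ j) x * (x' - x)‖ ≤ 2 * (D ^ 2 / δ ^ 2) := by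
      refine l1.trans ?_
      calc 4 * κ / (δ / 2) ^ 2 * ‖x' - x‖ ^ 2 ≤ 4 * (1 / 1000) / (δ / 2) ^ 2 * (10 * D) ^ 2 := by
            gcongr
        _ = 16 / 10 * (D ^ 2 / δ ^ 2) := by field_simp; ring
        _ ≤ _ := by linarith
    have l2' : ‖d j x' - d j x‖ ≤ 4 * (D ^ 2 / δ ^ 2) := by
      refine l2.trans ?_
      calc 2 * (D / 10) / (δ / 2) * ‖x' - x‖ ≤ 2 * (D / 10) / (δ / 2) * (10 * D) := by gcongr
        _ = 4 * (D ^ 2 / δ ^ 2) * δ := by field_simp; ring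
        _ ≤ 4 * (D ^ 2 / δ ^ 2) * 1 := by gcongr
        _ = _ := by ring
    set q := (ψ j x' - ψ j x - deriv (ψ j) x * (x' - x)) + (d j x' - d j x) with hq
    have lq : ‖q‖ ≤ 6 * (D ^ 2 / δ ^ 2) := (norm_add_le _ _).trans (by linarith)
    have e : (A (fun j w => ψ j w + d j w) (j + 1) ζ - A ψ (j + 1) ζ) / a (j + 1)
        = (x' - x) / a j + d j x / a (j + 1) + q / a (j + 1) := by
      have e1 : (x' - x) / a j = (1 + deriv (ψ j) x) * (x' - x) / a (j + 1) := by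
        rw [div_eq_div_iff aj aj1, ha j (by omega)]; ring
      rw [e1]; simp only [A, ← hx', ← hx, hq]; ring
    have m1 : ‖q / a (j + 1)‖ ≤ 11 * D ^ 2 / δ ^ 2 := by
      rw [norm_div, div_le_iff₀ (by linarith), mul_div_assoc]; nlinarith
    have m2 : ‖d j x / a (j + 1)‖ ≤ 11 / 100 * D := by
      rw [norm_div, div_le_iff₀ (by linarith)]; nlinarith
    have m3 : 11 * D ^ 2 / δ ^ 2 ≤ 3 / 100 * D := by rw [mul_div_assoc]; linarith
    have r2 : ‖(A (fun j w => ψ j w + d j w) (j + 1) ζ - A ψ (j + 1) ζ) / a (j + 1)‖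
        ≤ ((j + 1 : ℕ) : ℝ) * (14 / 100 * D) := by
      rw [e]; push_cast
      linarith [norm_add_le ((x' - x) / a j + d j x / a (j + 1)) (q / a (j + 1)),
        norm_add_le ((x' - x) / a j) (d j x / a (j + 1))]
    refine ⟨?_, r2, ?_⟩
    · rw [norm_div, div_le_iff₀ (by linarith)] at r2
      refine r2.trans ?_
      push_cast
      calc ((j : ℝ) + 1) * (14 / 100 * D) * ‖a (j + 1)‖ ≤ 63 * (14 / 100 * D) * (11 / 10) := by
            gcongr <;> linarith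
        _ ≤ 10 * D := by linarith
    · rw [Finset.sum_range_succ, e]
      set S := ∑ i ∈ Finset.range j, d i (A ψ i ζ) / a (i + 1)
      rw [show (x' - x) / a j + d j x / a (j + 1) + q / a (j + 1) - (S + d j x / a (j + 1))
        = ((x' - x) / a j - S) + q / a (j + 1) by ring]
      push_cast
      linarith [norm_add_le ((x' - x) / a j - S) (q / a (j + 1))]

lemma kerA {α α' β β' γ u V : ℂ} {κ : ℝ} (h0 : 0 ≤ κ) (hκ : κ ≤ 1 / 1000) (hu : u ≠ 0)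
    (h1 : ‖α' - 1‖ ≤ κ) (h2 : ‖β - 1‖ ≤ κ) (h3 : ‖β' - 1‖ ≤ κ) (h4 : ‖γ - 1‖ ≤ κ)
    (h5 : ‖α - α'‖ ≤ κ * ‖u‖) (h6 : ‖β - β'‖ ≤ κ * ‖u‖) (h7 : ‖V - u‖ ≤ κ * ‖u‖)
    (h8 : ‖V - γ * u‖ ≤ κ * ‖u‖ ^ 2) :
    ‖α / β * (γ * β' / α' / V) - 1 / u‖ ≤ 4 * κ := by
  obtain ⟨a1, a2⟩ := near_one h1
  obtain ⟨b1, -⟩ := near_one h2
  obtain ⟨-, c2⟩ := near_one h3
  obtain ⟨-, d2⟩ := near_one h4
  have hn : 0 < ‖u‖ := norm_pos_iff.2 hu
  have hV : 99 / 100 * ‖u‖ ≤ ‖V‖ := by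
    have := norm_sub_norm_le u V
    rw [norm_sub_rev] at this
    nlinarith
  have V0 : V ≠ 0 := norm_pos_iff.1 (by linarith)
  have α0 : α' ≠ 0 := norm_pos_iff.1 (by linarith)
  have β0 : β ≠ 0 := norm_pos_iff.1 (by linarith)
  have e : α / β * (γ * β' / α' / V) - 1 / u
      = ((α - α') * β' - α' * (β - β')) * γ / (β * α' * V) - (V - γ * u) / (V * u) := by
    field_simp; ring
  have n1 : ‖(α - α') * β' - α' * (β - β')‖ ≤ 2 * (κ * ‖u‖) * (101 / 100) := by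
    refine (norm_sub_le _ _).trans ?_
    rw [norm_mul, norm_mul]
    have t1 : ‖α - α'‖ * ‖β'‖ ≤ (κ * ‖u‖) * (101 / 100) := by gcongr; linarith
    have t2 : ‖α'‖ * ‖β - β'‖ ≤ (101 / 100) * (κ * ‖u‖) := by gcongr; linarith
    linarith
  have n2 : ‖((α - α') * β' - α' * (β - β')) * γ / (β * α' * V)‖ ≤ 5 / 2 * κ := by
    rw [norm_div, norm_mul, norm_mul, norm_mul, div_le_iff₀ (by positivity)]
    calc _ ≤ 2 * (κ * ‖u‖) * (101 / 100) * (101 / 100) := by gcongr; linarith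
      _ ≤ 5 / 2 * κ * (99 / 100 * (99 / 100) * (99 / 100 * ‖u‖)) := by
          nlinarith [mul_nonneg h0 hn.le]
      _ ≤ _ := by gcongr <;> linarith
  have n3 : ‖(V - γ * u) / (V * u)‖ ≤ 3 / 2 * κ := by
    rw [norm_div, norm_mul, div_le_iff₀ (by positivity)]
    calc _ ≤ κ * ‖u‖ ^ 2 := h8
      _ ≤ 3 / 2 * κ * (99 / 100 * ‖u‖ * ‖u‖) := by nlinarith [mul_nonneg h0 (sq_nonneg ‖u‖)]
      _ ≤ _ := by gcongr
  rw [e]
  linarith [norm_sub_le (((α - α') * β' - α' * (β - β')) * γ / (β * α' * V))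
    ((V - γ * u) / (V * u))]

lemma wt {α β γ : ℂ} {κ : ℝ} (hκ : κ ≤ 1 / 1000) (h1 : ‖α - 1‖ ≤ κ) (h2 : ‖β - 1‖ ≤ κ)
    (h3 : ‖γ - 1‖ ≤ κ) : ‖γ * β / α - 1‖ ≤ 4 / 1000 := by
  obtain ⟨a1, -⟩ := near_one h1
  obtain ⟨-, b2⟩ := near_one h2
  have α0 : α ≠ 0 := norm_pos_iff.1 (by linarith)
  have e : γ * β / α - 1 = ((γ - 1) * β + (β - 1) - (α - 1)) / α := by field_simp; ring
  rw [e, norm_div, div_le_iff₀ (by linarith)]
  have t1 : ‖(γ - 1) * β‖ ≤ 1 / 1000 * (1001 / 1000) := by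
    rw [norm_mul]; gcongr <;> linarith
  linarith [norm_sub_le ((γ - 1) * β + (β - 1)) (α - 1), norm_add_le ((γ - 1) * β) (β - 1)]

lemma kerB {W X ζ v : ℂ} (hζ : 1 ≤ ‖ζ‖) (hv : ‖v‖ ≤ 1 / 5) (hW : ‖W - 1‖ ≤ 4 / 1000)
    (hX : ‖X - (v - ζ)‖ ≤ 1 / 1000) : ‖W / X + 1 / ζ‖ ≤ 1 / 4 / ‖ζ‖ + 1 / 100 := by
  have h1 : 4 / 5 ≤ ‖v - ζ‖ := by
    have := norm_sub_norm_le ζ v
    rw [norm_sub_rev] at this; linarith
  have h2 : 79 / 100 ≤ ‖X‖ := by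
    have := norm_sub_norm_le (v - ζ) X
    rw [norm_sub_rev (v - ζ) X] at this; linarith
  have X0 : X ≠ 0 := norm_pos_iff.1 (by linarith)
  have Y0 : v - ζ ≠ 0 := norm_pos_iff.1 (by linarith)
  have ζ0 : ζ ≠ 0 := norm_pos_iff.1 (by linarith)
  have e : W / X + 1 / ζ = (W - 1) / X - (X - (v - ζ)) / (X * (v - ζ)) + v / ((v - ζ) * ζ) := by
    field_simp; ring
  have n1 : ‖(W - 1) / X‖ ≤ 6 / 1000 := by
    rw [norm_div, div_le_iff₀ (by linarith)]; linarith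
  have n2 : ‖(X - (v - ζ)) / (X * (v - ζ))‖ ≤ 2 / 1000 := by
    rw [norm_div, norm_mul, div_le_iff₀ (by positivity)]; nlinarith
  have n3 : ‖v / ((v - ζ) * ζ)‖ ≤ 1 / 4 / ‖ζ‖ := by
    rw [norm_div, norm_mul, div_le_div_iff₀ (by positivity) (by positivity)]; nlinarith
  rw [e]
  linarith [norm_add_le ((W - 1) / X - (X - (v - ζ)) / (X * (v - ζ))) (v / ((v - ζ) * ζ)),
    norm_sub_le ((W - 1) / X) ((X - (v - ζ)) / (X * (v - ζ)))]

lemma th_le (j : ℕ) : th j ≤ th (j + 1) := by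
  unfold th; push_cast; have := Real.pi_pos; gcongr; linarith

lemma th_sub (j : ℕ) : |th (j + 1) - th j| = 2 * Real.pi / 63 := by
  rw [abs_of_nonneg (by linarith [th_le j])]; unfold th; push_cast; ring

lemma arc_near {j : ℕ} {R θ : ℝ} (h1 : 1 ≤ R) (h2 : R ≤ 11 / 10)
    (hθ : θ ∈ uIcc (th j) (th (j + 1))) : ‖P j - circleMap 0 R θ‖ ≤ 1 / 5 := by
  rw [uIcc_of_le (th_le j)] at hθ
  have e1 : ‖circleMap 0 1 θ - circleMap 0 R θ‖ ≤ 1 / 10 := by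
    have : circleMap 0 1 θ - circleMap 0 R θ = circleMap 0 (1 - R) θ := by
      simp [circleMap]; ring
    rw [this, norm_circleMap_zero, abs_le]; constructor <;> linarith
  have e2 : ‖P j - circleMap 0 1 θ‖ ≤ 1 / 10 := by
    have h3 := (lipschitzWith_circleMap 0 1).dist_le_mul (th j) θ
    rw [dist_eq_norm, Real.dist_eq] at h3
    have h4 := th_sub j
    rw [abs_of_nonneg (by linarith [th_le j])] at h4
    have h5 : |th j - θ| ≤ 2 * Real.pi / 63 := by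
      rw [abs_le]; constructor <;> linarith [hθ.1, hθ.2]
    have h6 := Real.pi_lt_d2
    simp only [Real.coe_nnabs, abs_one, one_mul] at h3
    unfold P; linarith
  calc _ = ‖(P j - circleMap 0 1 θ) + (circleMap 0 1 θ - circleMap 0 R θ)‖ := by ring_nf
    _ ≤ _ := (norm_add_le _ _).trans (by linarith)

lemma sum_arcs {F : ℝ → ℂ} (hF : Continuous F) :
    ∑ j ∈ Finset.range 63, ∫ θ in th j..th (j + 1), F θ = ∫ θ in (0 : ℝ)..2 * Real.pi, F θ := by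
  rw [intervalIntegral.sum_integral_adjacent_intervals (fun k _ => hF.intervalIntegrable _ _)]
  congr 1 <;> simp [th]

end Pool.Agent.H.MP_40a019_an
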