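import Pool.Agent.H.MP_40a019_an.B

open Set Filter Metric Complex Topology

namespace Pool.Agent.H.MP_40a019_an

structure Phi (φ : ℂ → ℂ) : Prop where
  d : DifferentiableOn ℂ φ (U (1 / 2))
  b : ∀ w ∈ U (1 / 2), ‖φ w‖ ≤ 1 / 1000000
  t : Tendsto (fun w => w * φ w) (Bornology.cobounded ℂ) (𝓝 0)

noncomputable def res (φ : ℂ → ℂ) (ψ : ℕ → ℂ → ℂ) (ζ : ℂ) : ℂ :=
  φ (B ψ 63 ζ) + B ψ 63 ζ - A ψ 63 ζ

structure Inv (φ : ℂ → ℂ) (ψ : ℕ → ℂ → ℂ) (G : ℕ → Set ℂ) (ρ δ ε κ lam : ℝ) : Prop where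
  op : ∀ j < 63, IsOpen (G j)
  dψ : ∀ j < 63, DifferentiableOn ℂ (ψ j) (G j)
  bψ : ∀ j < 63, ∀ w ∈ G j, ‖ψ j w‖ ≤ κ
  far : ∀ j < 63, Far j ⊆ G j
  bl : ∀ j < 63, ∀ ζ ∈ U ρ, ball (A ψ j ζ) (δ / 2) ⊆ G j
  sm : ∀ j ≤ 63, Sm (fun ζ => A ψ j ζ - ζ) ρ κ
  td : ∀ j < 63, ∃ m, Tendsto (fun w => w * ψ j w) (Bornology.cobounded ℂ) (𝓝 m)
  rs : ∀ ζ ∈ U ρ, ‖res φ ψ ζ‖ ≤ ε
  n1 : 1 ≤ ρ
  n2 : ρ + 30 * δ ≤ 11 / 10
  n3 : 0 < δ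
  n4 : 0 ≤ ε
  n5 : ε ≤ lam * δ ^ 4
  n6 : 0 ≤ lam
  n7 : 0 ≤ κ
  n8 : κ + 800 * lam ≤ 1 / 1000000

noncomputable def da (ψ : ℕ → ℂ → ℂ) (j : ℕ) (ζ : ℂ) : ℂ := 1 + deriv (fun ζ => A ψ j ζ - ζ) ζ

variable {φ : ℂ → ℂ} {ψ : ℕ → ℂ → ℂ} {G : ℕ → Set ℂ} {ρ δ ε κ lam : ℝ}

lemma Inv.k (h : Inv φ ψ G ρ δ ε κ lam) : κ ≤ 1 / 1000000 := by linarith [h.n8, h.n6]

lemma Inv.d1 (h : Inv φ ψ G ρ δ ε κ lam) : δ ≤ 1 / 300 := by linarith [h.n1, h.n2]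

lemma Inv.l (h : Inv φ ψ G ρ δ ε κ lam) : lam ≤ 1 / 100000000 := by linarith [h.n8, h.n7]

lemma Inv.e (h : Inv φ ψ G ρ δ ε κ lam) : ε ≤ 1 / 100000000 := by
  have h1 : δ ^ 4 ≤ 1 := pow_le_one₀ h.n3.le (by linarith [h.d1])
  have := mul_le_mul_of_nonneg_left h1 h.n6
  linarith [h.n5, h.l]

lemma Inv.hasA (h : Inv φ ψ G ρ δ ε κ lam) {j : ℕ} (hj : j ≤ 63) {ζ : ℂ} (hζ : ζ ∈ U ρ) :
    HasDerivAt (A ψ j) (da ψ j ζ) ζ := by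
  have := (hasDerivAt_id' ζ).fun_add ((h.sm j hj).dAt hζ).hasDerivAt
  refine this.congr_of_eventuallyEq (Eventually.of_forall fun x => ?_)
  simp

lemma Inv.da_one (h : Inv φ ψ G ρ δ ε κ lam) {j : ℕ} (hj : j ≤ 63) {ζ : ℂ} (hζ : ζ ∈ U ρ) :
    ‖da ψ j ζ - 1‖ ≤ κ := by
  simpa [da] using (h.sm j hj).b1 ζ hζ

lemma Inv.da_succ (h : Inv φ ψ G ρ δ ε κ lam) {j : ℕ} (hj : j < 63) {ζ : ℂ} (hζ : ζ ∈ U ρ) :
    da ψ (j + 1) ζ = (1 + deriv (ψ j) (A ψ j ζ)) * da ψ j ζ := by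
  have h1 := h.hasA hj.le hζ
  have h2 : DifferentiableAt ℂ (ψ j) (A ψ j ζ) := (h.dψ j hj).differentiableAt
    ((h.op j hj).mem_nhds (h.bl j hj ζ hζ (mem_ball_self (by linarith [h.n3]))))
  have h3 : HasDerivAt (A ψ (j + 1)) (da ψ j ζ + deriv (ψ j) (A ψ j ζ) * da ψ j ζ) ζ :=
    h1.fun_add (h2.hasDerivAt.comp ζ h1)
  rw [(h.hasA (j := j + 1) hj hζ).unique h3]; ring

lemma Inv.da_cont (h : Inv φ ψ G ρ δ ε κ lam) {j : ℕ} (hj : j ≤ 63) :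
    ContinuousOn (da ψ j) (U ρ) :=
  continuousOn_const.add ((h.sm j hj).d.deriv (U_open ρ)).continuousOn

lemma Inv.fb (h : Inv φ ψ G ρ δ ε κ lam) : ∀ j < 63, ∀ w ∈ Far j, ‖ψ j w‖ ≤ κ :=
  fun j hj w hw => h.bψ j hj w (h.far j hj hw)

lemma B_half {b ζ : ℂ} (hζ : ζ ∈ U 1) (hb : ‖b - ζ‖ ≤ 1 / 10) : ball b (3 / 10) ⊆ U (1 / 2) := by
  have h1 : b ∈ U (1 / 2 + 3 / 10) := by
    have h2 : (1 : ℝ) < ‖ζ‖ := hζ
    have := norm_sub_norm_le ζ b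
    rw [norm_sub_rev] at this
    show 1 / 2 + 3 / 10 < ‖b‖
    linarith
  exact ball_sub_U h1

lemma res_diff (hφ : Phi φ) {κ ρ : ℝ} (hb : ∀ j < 63, ∀ w ∈ Far j, ‖ψ j w‖ ≤ κ)
    (h0 : 0 ≤ κ) (hκ : κ ≤ 1 / 1000) (hd : ∀ j < 63, DifferentiableOn ℂ (ψ j) (Far j))
    (hρ : 1 ≤ ρ) (hA : DifferentiableOn ℂ (A ψ 63) (U ρ)) :
    DifferentiableOn ℂ (res φ ψ) (U ρ) := by
  have h1 := (B_diff hb h0 hκ hd 63 le_rfl).mono (U_mono hρ)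
  refine ((hφ.d.comp h1 (fun ζ hζ => ?_)).add h1).sub hA
  have hζ' := U_mono hρ hζ
  exact B_half hζ' (B_near' hb h0 hκ hζ' le_rfl) (mem_ball_self (by norm_num))

lemma Inv.r_diff (hφ : Phi φ) (h : Inv φ ψ G ρ δ ε κ lam) :
    DifferentiableOn ℂ (res φ ψ) (U ρ) :=
  res_diff hφ h.fb h.n7 (by linarith [h.k]) (fun j hj => (h.dψ j hj).mono (h.far j hj)) h.n1
    (fun ζ hζ => (h.hasA le_rfl hζ).differentiableAt.differentiableWithinAt)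

lemma Inv.r_tend (hφ : Phi φ) (h : Inv φ ψ G ρ δ ε κ lam) :
    Tendsto (fun w => w * res φ ψ w) (Bornology.cobounded ℂ) (𝓝 0) := by
  have hκ : κ ≤ 1 / 1000 := by linarith [h.k]
  have h1 := AB_tend h.fb h.n7 hκ (fun j hj ζ hζ => (h.sm j hj).b0 ζ hζ) h.td 63 le_rfl
  have h2 : Tendsto (fun ζ => B ψ 63 ζ / ζ) (Bornology.cobounded ℂ) (𝓝 1) := by
    refine tend_ratio (C := 1 / 10) ?_
    filter_upwards [ev_U 1] with ζ hζ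
    simpa using B_near' h.fb h.n7 hκ hζ le_rfl
  have h3 := (tend_comp one_ne_zero hφ.t h2).add h1
  simp only [zero_div, add_zero] at h3
  refine h3.congr (fun ζ => ?_)
  simp only [res]; ring

noncomputable def c0 (φ : ℂ → ℂ) (ψ : ℕ → ℂ → ℂ) (R θ : ℝ) : ℂ :=
  res φ ψ (circleMap 0 R θ) * circleMap 0 R θ / (2 * Real.pi)

noncomputable def wgt (ψ : ℕ → ℂ → ℂ) (R : ℝ) (j : ℕ) (θ : ℝ) : ℂ :=
  da ψ j (circleMap 0 R θ) * da ψ (j + 1) (circleMap 0 R θ) / da ψ 63 (circleMap 0 R θ)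

noncomputable def pol (ψ : ℕ → ℂ → ℂ) (R : ℝ) (j : ℕ) (θ : ℝ) : ℂ := A ψ j (circleMap 0 R θ)

noncomputable def dd (φ : ℂ → ℂ) (ψ : ℕ → ℂ → ℂ) (R : ℝ) (j : ℕ) : ℂ → ℂ :=
  ker (fun θ => c0 φ ψ R θ * wgt ψ R j θ) (pol ψ R j) (th j) (th (j + 1))

lemma Inv.tU (h : Inv φ ψ G ρ δ ε κ lam) (θ : ℝ) : circleMap 0 (ρ + δ) θ ∈ U ρ := by
  show ρ < ‖circleMap 0 (ρ + δ) θ‖
  rw [norm_circleMap_zero, abs_of_pos (by linarith [h.n1, h.n3])]; linarith [h.n3]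

lemma Inv.tn (h : Inv φ ψ G ρ δ ε κ lam) (θ : ℝ) : ‖circleMap 0 (ρ + δ) θ‖ = ρ + δ := by
  rw [norm_circleMap_zero, abs_of_pos (by linarith [h.n1, h.n3])]

lemma Inv.c0_cont (hφ : Phi φ) (h : Inv φ ψ G ρ δ ε κ lam) : Continuous (c0 φ ψ (ρ + δ)) :=
  (((h.r_diff hφ).continuousOn.comp_continuous (continuous_circleMap _ _) h.tU).mul
    (continuous_circleMap _ _)).div_const _

lemma Inv.c0_b (h : Inv φ ψ G ρ δ ε κ lam) (θ : ℝ) :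
    ‖c0 φ ψ (ρ + δ) θ‖ ≤ ε * (ρ + δ) / (2 * Real.pi) := by
  have hp := Real.pi_pos
  have : ‖(2 * Real.pi : ℂ)‖ = 2 * Real.pi := by
    rw [norm_mul, Complex.norm_real, Real.norm_of_nonneg hp.le]; simp
  rw [c0, norm_div, norm_mul, h.tn, this]
  have := h.rs _ (h.tU θ)
  have : 0 ≤ ρ + δ := by linarith [h.n1, h.n3]
  gcongr

lemma Inv.da_ne (h : Inv φ ψ G ρ δ ε κ lam) {j : ℕ} (hj : j ≤ 63) {ζ : ℂ} (hζ : ζ ∈ U ρ) :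
    da ψ j ζ ≠ 0 :=
  norm_pos_iff.1 (by linarith [(near_one (h.da_one hj hζ)).1, h.k])

lemma Inv.w_cont (h : Inv φ ψ G ρ δ ε κ lam) {j : ℕ} (hj : j < 63) :
    Continuous (wgt ψ (ρ + δ) j) :=
  (((h.da_cont hj.le).comp_continuous (continuous_circleMap _ _) h.tU).mul
    ((h.da_cont (j := j + 1) hj).comp_continuous (continuous_circleMap _ _) h.tU)).div
    ((h.da_cont le_rfl).comp_continuous (continuous_circleMap _ _) h.tU)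
    (fun θ => h.da_ne le_rfl (h.tU θ))

lemma Inv.w_b (h : Inv φ ψ G ρ δ ε κ lam) {j : ℕ} (hj : j < 63) (θ : ℝ) :
    ‖wgt ψ (ρ + δ) j θ - 1‖ ≤ 4 / 1000 :=
  wt (by linarith [h.k]) (h.da_one le_rfl (h.tU θ)) (h.da_one (j := j + 1) hj (h.tU θ))
    (h.da_one hj.le (h.tU θ))

lemma Inv.p_cont (h : Inv φ ψ G ρ δ ε κ lam) {j : ℕ} (hj : j < 63) :
    Continuous (pol ψ (ρ + δ) j) :=
  (show ContinuousOn (A ψ j) (U ρ) from fun _ hζ =>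
    (h.hasA hj.le hζ).continuousAt.continuousWithinAt).comp_continuous
    (continuous_circleMap _ _) h.tU

lemma Inv.c_b (h : Inv φ ψ G ρ δ ε κ lam) {j : ℕ} (hj : j < 63) (θ : ℝ) :
    ‖c0 φ ψ (ρ + δ) θ * wgt ψ (ρ + δ) j θ‖ ≤ ε / 5 := by
  have h1 := h.c0_b θ
  have h2 := (near_one (h.w_b hj θ)).2
  have h3 : ε * (ρ + δ) / (2 * Real.pi) ≤ ε * (11 / 60) := by
    rw [div_le_iff₀ (by positivity), mul_assoc]
    exact mul_le_mul_of_nonneg_left (by linarith [Real.pi_gt_three, h.n2, h.n3]) h.n4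
  rw [norm_mul]
  calc _ ≤ ε * (11 / 60) * (1 + 4 / 1000) := by
        gcongr
        · have := h.n4; positivity
        · linarith
    _ ≤ ε / 5 := by linarith [h.n4]

lemma Inv.dd_b (h : Inv φ ψ G ρ δ ε κ lam) {j : ℕ} (hj : j < 63) {r : ℝ} (hr : 0 < r) {w : ℂ}
    (hw : ∀ θ ∈ uIcc (th j) (th (j + 1)), r ≤ ‖w - pol ψ (ρ + δ) j θ‖) :
    ‖dd φ ψ (ρ + δ) j w‖ ≤ ε / 50 / r := by
  refine (ker_bound hr (fun θ _ => h.c_b hj θ) hw).trans ?_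
  rw [th_sub]
  have h1 : 2 * Real.pi / 63 ≤ 1 / 10 := by linarith [Real.pi_lt_d2]
  have := h.n4
  calc ε / 5 / r * (2 * Real.pi / 63) ≤ ε / 5 / r * (1 / 10) := by gcongr
    _ = ε / 50 / r := by ring

lemma Inv.dd_d (hφ : Phi φ) (h : Inv φ ψ G ρ δ ε κ lam) {j : ℕ} (hj : j < 63) {r : ℝ}
    (hr : 0 < r) {w : ℂ}
    (hw : ∀ θ ∈ uIcc (th j) (th (j + 1)), r ≤ ‖w - pol ψ (ρ + δ) j θ‖) :
    DifferentiableAt ℂ (dd φ ψ (ρ + δ) j) w :=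
  ker_diff ((h.c0_cont hφ).mul (h.w_cont hj)) (h.p_cont hj) hr (fun θ _ => h.c_b hj θ) hw

lemma Inv.p_near (h : Inv φ ψ G ρ δ ε κ lam) {j : ℕ} (hj : j < 63) (θ : ℝ) :
    ‖pol ψ (ρ + δ) j θ - circleMap 0 (ρ + δ) θ‖ ≤ κ := (h.sm j hj.le).b0 _ (h.tU θ)

lemma Inv.far_pol (h : Inv φ ψ G ρ δ ε κ lam) {j : ℕ} (hj : j < 63) {w : ℂ} (hw : w ∈ Far j) :
    ∀ θ ∈ uIcc (th j) (th (j + 1)), 1 / 4 ≤ ‖w - pol ψ (ρ + δ) j θ‖ := by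
  intro θ hθ
  have h1 := arc_near (R := ρ + δ) (by linarith [h.n1, h.n3]) (by linarith [h.n2, h.n3]) hθ
  have h2 := h.p_near hj θ
  have h3 : 1 / 2 < ‖w - P j‖ := hw
  have h4 : ‖w - P j‖ ≤ ‖w - pol ψ (ρ + δ) j θ‖ + ‖pol ψ (ρ + δ) j θ - circleMap 0 (ρ + δ) θ‖
      + ‖P j - circleMap 0 (ρ + δ) θ‖ := by
    calc _ = ‖(w - pol ψ (ρ + δ) j θ) + (pol ψ (ρ + δ) j θ - circleMap 0 (ρ + δ) θ)
          - (P j - circleMap 0 (ρ + δ) θ)‖ := by ring_nf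
      _ ≤ _ := (norm_sub_le _ _).trans (by gcongr; exact norm_add_le _ _)
  linarith [h.k]

lemma Inv.gap (h : Inv φ ψ G ρ δ ε κ lam) {ζ : ℂ} (hζ : ζ ∈ U (ρ + 2 * δ)) (θ : ℝ) :
    δ ≤ ‖ζ - circleMap 0 (ρ + δ) θ‖ := by
  have h1 : ρ + 2 * δ < ‖ζ‖ := hζ
  linarith [norm_sub_norm_le ζ (circleMap 0 (ρ + δ) θ), h.tn θ]

lemma Inv.A_pol (h : Inv φ ψ G ρ δ ε κ lam) {j : ℕ} (hj : j < 63) {ζ : ℂ}
    (hζ : ζ ∈ U (ρ + 2 * δ)) {w : ℂ} (hw : w ∈ ball (A ψ j ζ) (δ / 2)) (θ : ℝ) :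
    2 / 5 * δ ≤ ‖w - pol ψ (ρ + δ) j θ‖ := by
  have hζ' : ζ ∈ U ρ := U_mono (by linarith [h.n3]) hζ
  have h1 := (h.sm j hj.le).l1 ζ hζ' _ (h.tU θ)
  have h2 := h.gap hζ θ
  have h3 : ‖w - A ψ j ζ‖ < δ / 2 := by simpa [dist_eq_norm] using hw
  set t := circleMap 0 (ρ + δ) θ with ht
  have h4 : ‖ζ - t‖ ≤ ‖w - pol ψ (ρ + δ) j θ‖ + ‖w - A ψ j ζ‖
      + ‖A ψ j ζ - ζ - (A ψ j t - t)‖ := by
    calc _ = ‖(w - pol ψ (ρ + δ) j θ) - (w - A ψ j ζ) - (A ψ j ζ - ζ - (A ψ j t - t))‖ := by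
          simp only [pol, ← ht]; ring_nf
      _ ≤ _ := (norm_sub_le _ _).trans (by gcongr; exact norm_sub_le _ _)
  have h5 : κ * ‖ζ - t‖ ≤ 1 / 10 * ‖ζ - t‖ := by gcongr; linarith [h.k]
  linarith

lemma Inv.cauchy (hφ : Phi φ) (h : Inv φ ψ G ρ δ ε κ lam) {ζ : ℂ} (hζ : ζ ∈ U (ρ + 2 * δ)) :
    ∑ j ∈ Finset.range 63, ∫ θ in th j..th (j + 1),
      c0 φ ψ (ρ + δ) θ / (ζ - circleMap 0 (ρ + δ) θ) = res φ ψ ζ := by
  have hne : ∀ θ, ζ - circleMap 0 (ρ + δ) θ ≠ 0 := fun θ =>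
    norm_pos_iff.1 (lt_of_lt_of_le h.n3 (h.gap hζ θ))
  rw [sum_arcs (F := fun θ => c0 φ ψ (ρ + δ) θ / (ζ - circleMap 0 (ρ + δ) θ))
    ((h.c0_cont hφ).div (continuous_const.sub (continuous_circleMap _ _)) hne)]
  have h1 : ρ + 2 * δ < ‖ζ‖ := hζ
  have h2 := circ_cauchy (R := ρ + δ) (ζ := ζ) (by linarith [h.n1]) (by linarith [h.n3])
    (by linarith [h.n3]) (h.r_diff hφ) (h.r_tend hφ)
  rw [circ_eq] at h2
  have h3 : (2 * Real.pi * I : ℂ) ≠ 0 := two_pi_I_ne_zero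
  rw [← mul_left_cancel₀ h3 h2]
  refine intervalIntegral.integral_congr (fun θ _ => ?_)
  simp only [c0]; ring

lemma Inv.mass (hφ : Phi φ) (h : Inv φ ψ G ρ δ ε κ lam) :
    ∑ j ∈ Finset.range 63, ∫ θ in th j..th (j + 1), c0 φ ψ (ρ + δ) θ = 0 := by
  rw [sum_arcs (h.c0_cont hφ)]
  have h2 := circ_zero (R := ρ + δ) (by linarith [h.n1]) (by linarith [h.n3])
    (h.r_diff hφ) (h.r_tend hφ)
  rw [circ_eq] at h2
  exact (mul_eq_zero.1 h2).resolve_left two_pi_I_ne_zero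

lemma sum_le {x : ℕ → ℂ} {C : ℝ} (h : ∀ j < 63, ‖x j‖ ≤ C) :
    ‖∑ j ∈ Finset.range 63, x j‖ ≤ 63 * C := by
  refine (norm_sum_le _ _).trans ?_
  have := Finset.sum_le_card_nsmul (Finset.range 63) (fun j => ‖x j‖) C
    (fun j hj => h j (Finset.mem_range.1 hj))
  simpa using this

lemma Inv.mainA (hφ : Phi φ) (h : Inv φ ψ G ρ δ ε κ lam) {ζ : ℂ} (hζ : ζ ∈ U (ρ + 2 * δ)) :
    ‖da ψ 63 ζ * ∑ j ∈ Finset.range 63, dd φ ψ (ρ + δ) j (A ψ j ζ) / da ψ (j + 1) ζ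
      - res φ ψ ζ‖ ≤ 1 / 100 * ε := by
  have hζ' : ζ ∈ U ρ := U_mono (by linarith [h.n3]) hζ
  have hne : ∀ θ, ζ - circleMap 0 (ρ + δ) θ ≠ 0 := fun θ =>
    norm_pos_iff.1 (lt_of_lt_of_le h.n3 (h.gap hζ θ))
  rw [← h.cauchy hφ hζ, Finset.mul_sum, ← Finset.sum_sub_distrib]
  have hp := Real.pi_pos
  have he := h.n4
  have hk := h.n7
  refine (sum_le (C := ε * (11 / 10) / (2 * Real.pi) * (4 * κ) * (2 * Real.pi / 63))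
    (fun j hj => ?_)).trans ?_
  · have hd : 0 < δ := h.n3
    have i1 := ker_int (c := fun θ => c0 φ ψ (ρ + δ) θ * wgt ψ (ρ + δ) j θ)
      ((h.c0_cont hφ).mul (h.w_cont hj)) (h.p_cont hj) (a := th j)
      (b := th (j + 1)) (w := A ψ j ζ) (fun θ _ e => by
        have := h.A_pol hj hζ (mem_ball_self (by positivity)) θ
        rw [← e, sub_self, norm_zero] at this; linarith)
    have i2 : IntervalIntegrable (fun θ => c0 φ ψ (ρ + δ) θ / (ζ - circleMap 0 (ρ + δ) θ))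
        MeasureTheory.volume (th j) (th (j + 1)) :=
      ((h.c0_cont hφ).div (continuous_const.sub (continuous_circleMap _ _)) hne).intervalIntegrable
        _ _
    have e : da ψ 63 ζ * (dd φ ψ (ρ + δ) j (A ψ j ζ) / da ψ (j + 1) ζ)
        = ∫ θ in th j..th (j + 1), da ψ 63 ζ / da ψ (j + 1) ζ *
          (c0 φ ψ (ρ + δ) θ * wgt ψ (ρ + δ) j θ / (A ψ j ζ - pol ψ (ρ + δ) j θ)) := by
      rw [intervalIntegral.integral_const_mul]; simp only [dd, ker]; ring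
    rw [e, ← intervalIntegral.integral_sub (i1.const_mul _) i2, ← th_sub j]
    refine intervalIntegral.norm_integral_le_of_norm_le_const (fun θ _ => ?_)
    have ht := h.tU θ
    set t := circleMap 0 (ρ + δ) θ with htdef
    have k := kerA (α := da ψ 63 ζ) (α' := da ψ 63 t) (β := da ψ (j + 1) ζ) (β' := da ψ (j + 1) t)
      (γ := da ψ j t) (u := ζ - t) (V := A ψ j ζ - A ψ j t) hk (by linarith [h.k]) (hne θ)
      (h.da_one le_rfl ht) (h.da_one hj hζ') (h.da_one hj ht) (h.da_one hj.le ht)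
      (by simpa [da] using (h.sm 63 le_rfl).l3 ζ hζ' t ht)
      (by simpa [da] using (h.sm (j + 1) hj).l3 ζ hζ' t ht)
      (by
        have := (h.sm j hj.le).l1 ζ hζ' t ht
        rwa [show A ψ j ζ - ζ - (A ψ j t - t) = A ψ j ζ - A ψ j t - (ζ - t) by ring] at this)
      (by
        have := (h.sm j hj.le).l2 ζ hζ' t ht
        rwa [show A ψ j ζ - ζ - (A ψ j t - t) - deriv (fun ζ => A ψ j ζ - ζ) t * (ζ - t)
          = A ψ j ζ - A ψ j t - da ψ j t * (ζ - t) by simp only [da]; ring] at this)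
    have e2 : da ψ 63 ζ / da ψ (j + 1) ζ *
          (c0 φ ψ (ρ + δ) θ * wgt ψ (ρ + δ) j θ / (A ψ j ζ - pol ψ (ρ + δ) j θ))
          - c0 φ ψ (ρ + δ) θ / (ζ - t) = c0 φ ψ (ρ + δ) θ * (da ψ 63 ζ / da ψ (j + 1) ζ *
          (da ψ j t * da ψ (j + 1) t / da ψ 63 t / (A ψ j ζ - A ψ j t)) - 1 / (ζ - t)) := by
      simp only [wgt, pol, ← htdef]; ring
    rw [e2, norm_mul]
    have h5 : ‖c0 φ ψ (ρ + δ) θ‖ ≤ ε * (11 / 10) / (2 * Real.pi) :=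
      (h.c0_b θ).trans (by gcongr; linarith [h.n2, h.n3])
    gcongr
  · have : 63 * (ε * (11 / 10) / (2 * Real.pi) * (4 * κ) * (2 * Real.pi / 63))
      = 44 / 10 * κ * ε := by field_simp; ring
    rw [this]; gcongr; linarith [h.k]

lemma Inv.mainB (hφ : Phi φ) (h : Inv φ ψ G ρ δ ε κ lam) {ζ : ℂ} (hζ : ζ ∈ U (ρ + 2 * δ))
    {b : ℕ → ℂ} (hb : ∀ j < 63, ‖b j - ζ‖ ≤ 1 / 10000) :
    ‖∑ j ∈ Finset.range 63, dd φ ψ (ρ + δ) j (P j - b j)‖ ≤ 27 / 100 * ε := by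
  have h1 : ρ + 2 * δ < ‖ζ‖ := hζ
  have hζ1 : ζ ∈ U 1 := U_mono (by linarith [h.n3, h.n1]) hζ
  have hp := Real.pi_pos
  have he := h.n4
  have hd := h.n3
  have hr := h.n1
  have hz : 0 < ‖ζ‖ := by linarith
  have e0 : ∑ j ∈ Finset.range 63, dd φ ψ (ρ + δ) j (P j - b j)
      = ∑ j ∈ Finset.range 63, (dd φ ψ (ρ + δ) j (P j - b j)
        + (∫ θ in th j..th (j + 1), c0 φ ψ (ρ + δ) θ) / ζ) := by
    rw [Finset.sum_add_distrib, ← Finset.sum_div, h.mass hφ]; simp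
  rw [e0]
  refine (sum_le (C := ε / (2 * Real.pi) * (27 / 100) * (2 * Real.pi / 63))
    (fun j hj => ?_)).trans (le_of_eq (by field_simp))
  have hf : P j - b j ∈ Far j :=
    far_ball hζ1 ((hb j hj).trans (by norm_num)) (mem_ball_self (by norm_num))
  have i1 := ker_int (c := fun θ => c0 φ ψ (ρ + δ) θ * wgt ψ (ρ + δ) j θ)
      ((h.c0_cont hφ).mul (h.w_cont hj)) (h.p_cont hj) (a := th j)
    (b := th (j + 1)) (w := P j - b j) (fun θ hθ e => by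
      have := h.far_pol hj hf θ hθ
      rw [← e, sub_self, norm_zero] at this; linarith)
  have i2 : IntervalIntegrable (fun θ => c0 φ ψ (ρ + δ) θ / ζ)
      MeasureTheory.volume (th j) (th (j + 1)) :=
    ((h.c0_cont hφ).div_const ζ).intervalIntegrable _ _
  rw [← intervalIntegral.integral_div, dd, ker, ← intervalIntegral.integral_add i1 i2, ← th_sub j]
  refine intervalIntegral.norm_integral_le_of_norm_le_const (fun θ hθ => ?_)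
  have hθ' := uIoc_subset_uIcc hθ
  have k := kerB (W := wgt ψ (ρ + δ) j θ) (X := P j - b j - pol ψ (ρ + δ) j θ) (ζ := ζ)
    (v := P j - circleMap 0 (ρ + δ) θ) (by linarith)
    (arc_near (by linarith) (by linarith [h.n2]) hθ') (h.w_b hj θ) (by
      have h2 := h.p_near hj θ
      have h3 := hb j hj
      rw [show P j - b j - pol ψ (ρ + δ) j θ - (P j - circleMap 0 (ρ + δ) θ - ζ)
        = -((b j - ζ) + (pol ψ (ρ + δ) j θ - circleMap 0 (ρ + δ) θ)) by ring, norm_neg]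
      linarith [norm_add_le (b j - ζ) (pol ψ (ρ + δ) j θ - circleMap 0 (ρ + δ) θ), h.k])
  have e2 : c0 φ ψ (ρ + δ) θ * wgt ψ (ρ + δ) j θ / (P j - b j - pol ψ (ρ + δ) j θ)
      + c0 φ ψ (ρ + δ) θ / ζ = c0 φ ψ (ρ + δ) θ *
        (wgt ψ (ρ + δ) j θ / (P j - b j - pol ψ (ρ + δ) j θ) + 1 / ζ) := by ring
  rw [e2, norm_mul]
  have h5 : (ρ + δ) * (1 / 4 / ‖ζ‖ + 1 / 100) ≤ 27 / 100 := by
    have : (ρ + δ) * (1 / 4 / ‖ζ‖) ≤ 1 / 4 := by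
      rw [mul_div_assoc', div_le_iff₀ hz]; linarith
    linarith [h.n2]
  calc _ ≤ ε * (ρ + δ) / (2 * Real.pi) * (1 / 4 / ‖ζ‖ + 1 / 100) := by
        gcongr; exact h.c0_b θ
    _ = ε / (2 * Real.pi) * ((ρ + δ) * (1 / 4 / ‖ζ‖ + 1 / 100)) := by ring
    _ ≤ _ := by gcongr

end Pool.Agent.H.MP_40a019_an
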