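import Pool.Agent.H.MP_40a019_an.C

open Set Filter Metric Complex Topology

namespace Pool.Agent.H.MP_40a019_an

variable {φ : ℂ → ℂ} {ψ : ℕ → ℂ → ℂ} {G : ℕ → Set ℂ} {ρ δ ε κ lam : ℝ}

lemma A_diff {ψ : ℕ → ℂ → ℂ} {G : ℕ → Set ℂ} {V : Set ℂ}
    (hd : ∀ j < 63, DifferentiableOn ℂ (ψ j) (G j)) (hm : ∀ j < 63, ∀ ζ ∈ V, A ψ j ζ ∈ G j) :
    ∀ j ≤ 63, DifferentiableOn ℂ (A ψ j) V := by
  intro j
  induction j with
  | zero => intro _; exact differentiableOn_id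
  | succ j ih =>
    intro hj
    have h1 := ih (by omega)
    exact h1.add ((hd j hj).comp h1 (hm j hj))

lemma Inv.step (hφ : Phi φ) (h : Inv φ ψ G ρ δ ε κ lam) :
    ∃ ψ' G', Inv φ ψ' G' (ρ + 3 * δ) (9 / 10 * δ) (ε / 2) (κ + 160 * lam) (77 / 100 * lam) ∧
      ∀ j < 63, ∀ w ∈ Far j, ‖ψ' j w - ψ j w‖ ≤ ε := by
  have hδ := h.n3
  have hδ1 := h.d1
  have he := h.n4
  have hl := h.n6
  have hk := h.n7
  have hk1 := h.k
  have hl1 := h.l
  have he1 := h.e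
  set d := dd φ ψ (ρ + δ) with hd
  set D := ε / δ with hD
  have D0 : 0 ≤ D := by positivity
  have D1 : D ≤ lam * δ ^ 3 := by
    rw [hD, div_le_iff₀ hδ]; linarith [h.n5, show lam * δ ^ 3 * δ = lam * δ ^ 4 by ring]
  have hδ2 : 0 < δ ^ 2 := by positivity
  have D2 : D ≤ lam * δ ^ 2 := by
    refine D1.trans ?_
    have : δ ^ 3 ≤ δ ^ 2 := pow_le_pow_of_le_one hδ.le (by linarith) (by norm_num)
    gcongr
  have D3 : 500 * D ≤ δ ^ 2 := by
    have : lam * δ ^ 2 ≤ 1 / 500 * δ ^ 2 := by gcongr; linarith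
    linarith
  have D4 : δ ^ 2 ≤ δ := by nlinarith
  have D5 : D ≤ lam := by
    refine D2.trans ?_
    have : lam * δ ^ 2 ≤ lam * 1 := by gcongr; linarith
    linarith
  set K : ℕ → Set ℂ := fun j =>
    {w | ∀ θ ∈ uIcc (th j) (th (j + 1)), δ / 5 ≤ ‖w - pol ψ (ρ + δ) j θ‖} with hK
  set G' : ℕ → Set ℂ := fun j => G j ∩ interior (K j) with hG'
  have dK : ∀ j < 63, ∀ w ∈ G' j, ‖d j w‖ ≤ D / 10 := by
    intro j hj w hw
    refine (h.dd_b hj (r := δ / 5) (by positivity) (interior_subset hw.2)).trans (le_of_eq ?_)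
    rw [hD]; field_simp; ring
  have dD : ∀ j < 63, DifferentiableOn ℂ (d j) (G' j) := fun j hj w hw =>
    (h.dd_d hφ hj (r := δ / 5) (by positivity) (interior_subset hw.2)).differentiableWithinAt
  have dF : ∀ j < 63, ∀ w ∈ Far j, ‖d j w‖ ≤ 8 / 100 * ε := by
    intro j hj w hw
    exact (h.dd_b hj (r := 1 / 4) (by positivity) (h.far_pol hj hw)).trans (le_of_eq (by ring))
  have fG : ∀ j < 63, Far j ⊆ G' j := fun j hj => subset_inter (h.far j hj)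
    (interior_maximal (fun w hw θ hθ => le_trans (by linarith) (h.far_pol hj hw θ hθ))
      (Far_open j))
  have hU : U (ρ + 2 * δ) ⊆ U ρ := U_mono (by linarith)
  have hU3 : U (ρ + 3 * δ) ⊆ U (ρ + 2 * δ) := U_mono (by linarith)
  have bG : ∀ j < 63, ∀ ζ ∈ U (ρ + 2 * δ), ball (A ψ j ζ) (δ / 2) ⊆ G' j := fun j hj ζ hζ =>
    subset_inter (h.bl j hj ζ (hU hζ))
      (interior_maximal (fun w hw θ _ => le_trans (by linarith) (h.A_pol hj hζ hw θ)) isOpen_ball)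
  have cA : ∀ ζ ∈ U (ρ + 2 * δ), _ := fun ζ hζ => chainA (ψ := ψ) (d := d) (κ := κ) (δ := δ)
    (D := D) (ζ := ζ) (a := fun j => da ψ j ζ)
    (fun j hj => (h.dψ j hj).mono (h.bl j hj ζ (hU hζ)))
    (fun j hj w hw => h.bψ j hj w (h.bl j hj ζ (hU hζ) hw))
    (fun j hj => (dD j hj).mono (bG j hj ζ hζ)) (fun j hj w hw => dK j hj w (bG j hj ζ hζ hw))
    (fun j hj => h.da_succ hj (hU hζ)) (fun j hj => h.da_one hj (hU hζ)) (by linarith) hδ
    (by linarith) D0 D3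
  set ψ' : ℕ → ℂ → ℂ := fun j w => ψ j w + d j w with hψ'
  have dψ' : ∀ j < 63, DifferentiableOn ℂ (ψ' j) (G' j) := fun j hj =>
    ((h.dψ j hj).mono inter_subset_left).add (dD j hj)
  have bl' : ∀ j < 63, ∀ ζ ∈ U (ρ + 2 * δ), ball (A ψ' j ζ) (9 / 10 * δ / 2) ⊆ G' j := by
    intro j hj ζ hζ
    refine subset_trans (ball_subset_ball' ?_) (bG j hj ζ hζ)
    rw [dist_eq_norm]
    linarith [(cA ζ hζ j hj.le).1]
  have dA' := A_diff (V := U (ρ + 2 * δ)) dψ'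
    (fun j hj ζ hζ => bl' j hj ζ hζ (mem_ball_self (by positivity)))
  refine ⟨ψ', G', ⟨fun j hj => (h.op j hj).inter isOpen_interior, dψ', fun j hj w hw => ?_, fG,
    fun j hj ζ hζ => bl' j hj ζ (hU3 hζ), fun j hj => ?_, fun j hj => ?_, fun ζ hζ => ?_,
    by linarith [h.n1], by linarith [h.n2], by positivity, by positivity, ?_, by positivity,
    by positivity, by linarith [h.n8]⟩, fun j hj w hw => ?_⟩
  · linarith [norm_add_le (ψ j w) (d j w), h.bψ j hj w hw.1, dK j hj w hw]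
  · have s1 : Sm (fun ζ => A ψ' j ζ - A ψ j ζ) (ρ + 2 * δ + δ) (16 * (10 * D) / δ ^ 2) :=
      Sm.of_bound hδ (by linarith) ((dA' j hj).sub (fun ζ hζ =>
        (h.hasA hj (hU hζ)).differentiableAt.differentiableWithinAt))
        (fun ζ hζ => (cA ζ hζ j hj).1) (by positivity)
    have s2 := ((h.sm j hj).mono (ρ' := ρ + 3 * δ) (by linarith) le_rfl).add
      (s1.mono (ρ' := ρ + 3 * δ) (K' := 160 * lam) (by linarith) (by
        rw [div_le_iff₀ hδ2]; linarith))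
    have e : (fun ζ => A ψ' j ζ - ζ) = fun ζ => A ψ j ζ - ζ + (A ψ' j ζ - A ψ j ζ) := by
      funext ζ; ring
    rw [e]; exact s2
  · obtain ⟨m, hm⟩ := h.td j hj
    have t := ker_tend (c := fun θ => c0 φ ψ (ρ + δ) θ * wgt ψ (ρ + δ) j θ)
      ((h.c0_cont hφ).mul (h.w_cont hj)) (h.p_cont hj) (a := th j) (b := th (j + 1))
      (fun θ _ => h.c_b hj θ) (fun θ _ => by
        have h1 := h.p_near hj θ
        have h2 := h.tn θ
        linarith [norm_sub_norm_le (pol ψ (ρ + δ) j θ) (circleMap 0 (ρ + δ) θ), h.n2])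
    exact ⟨_, (hm.add t).congr (fun w => by simp only [hψ', hd, dd]; ring)⟩
  · have hζ2 := hU3 hζ
    have hζ1 : ζ ∈ U 1 := U_mono (by linarith [h.n1]) hζ
    obtain ⟨b1, b2⟩ := chainB (ψ := ψ) (d := d) hζ1 h.fb
      (fun j hj => (h.dψ j hj).mono (h.far j hj)) dF hk (by linarith) he (by linarith) 63 le_rfl
    have b3 := h.mainB hφ hζ2 (b := fun j => B ψ' j ζ) (fun j hj => by
      have := B_near (ψ := ψ') (κ := κ + 8 / 100 * ε) (fun j hj w hw =>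
        (norm_add_le _ _).trans (add_le_add (h.fb j hj w hw) (dF j hj w hw))) (by positivity)
        (by linarith) hζ1 j hj.le
      have hj' : (j : ℝ) ≤ 63 := by exact_mod_cast hj.le
      refine this.trans ?_
      calc (j : ℝ) * (κ + 8 / 100 * ε) ≤ 63 * (κ + 8 / 100 * ε) := by gcongr
        _ ≤ _ := by linarith)
    have a1 := h.mainA hφ hζ2
    obtain ⟨-, -, a2⟩ := cA ζ hζ2 63 le_rfl
    have n1 := B_near' h.fb hk (by linarith) hζ1 (j := 63) le_rfl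
    have hs := B_half hζ1 n1
    have f1 := ball_L1 (hφ.d.mono hs) (fun w hw => hφ.b w (hs hw)) (w := B ψ' 63 ζ) (by
      rw [mem_ball, dist_eq_norm]; push_cast at b1; linarith)
    have a0 := h.da_ne (j := 63) le_rfl (hU hζ2)
    have a3 := (near_one (h.da_one (j := 63) le_rfl (hU hζ2))).2
    set SA := ∑ j ∈ Finset.range 63, d j (A ψ j ζ) / da ψ (j + 1) ζ with hSA
    set SB := ∑ j ∈ Finset.range 63, d j (P j - B ψ' j ζ) with hSB
    have q1 : D ^ 2 / δ ^ 2 ≤ ε * lam := by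
      rw [div_le_iff₀ hδ2, sq D]
      calc D * D ≤ D * (lam * δ ^ 3) := by gcongr
        _ = ε * lam * δ ^ 2 := by rw [hD]; field_simp
    have q2 : ε * lam ≤ ε * (1 / 100000000) := by gcongr
    have q3 : κ * ε ≤ 1 / 1000000 * ε := by gcongr
    have a4 : ‖da ψ 63 ζ * ((A ψ' 63 ζ - A ψ 63 ζ) / da ψ 63 ζ - SA)‖ ≤ 1 / 100 * ε := by
      rw [norm_mul]
      push_cast at a2
      rw [mul_div_assoc] at a2
      calc _ ≤ 2 * (63 * (11 * (D ^ 2 / δ ^ 2))) := by gcongr; linarith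
        _ ≤ _ := by linarith
    have e : res φ ψ' ζ = (φ (B ψ' 63 ζ) - φ (B ψ 63 ζ)) + (B ψ' 63 ζ - B ψ 63 ζ + SB) - SB
        - (da ψ 63 ζ * SA - res φ ψ ζ)
        - da ψ 63 ζ * ((A ψ' 63 ζ - A ψ 63 ζ) / da ψ 63 ζ - SA) := by
      simp only [res]; field_simp; ring
    rw [e]
    push_cast at b1 b2
    have f2 : ‖φ (B ψ' 63 ζ) - φ (B ψ 63 ζ)‖ ≤ 1 / 100 * ε := by linarith
    refine (norm_sub_le _ _).trans ?_
    have g1 := norm_sub_le ((φ (B ψ' 63 ζ) - φ (B ψ 63 ζ)) + (B ψ' 63 ζ - B ψ 63 ζ + SB) - SB)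
      (da ψ 63 ζ * SA - res φ ψ ζ)
    have g2 := norm_sub_le ((φ (B ψ' 63 ζ) - φ (B ψ 63 ζ)) + (B ψ' 63 ζ - B ψ 63 ζ + SB)) SB
    have g3 := norm_add_le (φ (B ψ' 63 ζ) - φ (B ψ 63 ζ)) (B ψ' 63 ζ - B ψ 63 ζ + SB)
    linarith
  · have := h.n5
    have e : 77 / 100 * lam * (9 / 10 * δ) ^ 4 = 505197 / 1000000 * (lam * δ ^ 4) := by ring
    rw [e]; linarith
  · simp only [hψ', add_sub_cancel_left]
    linarith [dF j hj w hw]

noncomputable def e0 : ℝ := 1 / 800000000 * (1 / 300) ^ 4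

lemma e0_pos : 0 < e0 := by unfold e0; positivity

lemma A_zero (j : ℕ) (ζ : ℂ) : A (fun _ _ => 0) j ζ = ζ := by
  induction j with
  | zero => rfl
  | succ j ih => simp [A, ih]

lemma B_zero (j : ℕ) (ζ : ℂ) : B (fun _ _ => 0) j ζ = ζ := by
  induction j with
  | zero => rfl
  | succ j ih => simp [B, ih]

lemma Inv.init (hs : ∀ w ∈ U (1 / 2), ‖φ w‖ ≤ e0) :
    Inv φ (fun _ _ => 0) (fun _ => univ) 1 (1 / 300) e0 0 (1 / 800000000) := by
  refine ⟨fun _ _ => isOpen_univ, fun _ _ => differentiableOn_const _, by simp, by simp, by simp,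
    fun j _ => ?_, fun j _ => ⟨0, by simp⟩, fun ζ hζ => ?_, le_rfl, by norm_num, by norm_num,
    e0_pos.le, le_rfl, by norm_num, le_rfl, by norm_num⟩
  · simpa [A_zero] using Sm.zero 1
  · simpa [res, A_zero, B_zero] using hs ζ (U_mono (by norm_num) hζ)

lemma far_A {j : ℕ} {a ζ : ℂ} (hζ : ζ ∈ U 2) (ha : ‖a - ζ‖ ≤ 1 / 10) : a ∈ Far j := by
  have h2 : (2 : ℝ) < ‖ζ‖ := hζ
  have h3 : ‖ζ‖ ≤ ‖a - P j‖ + ‖P j‖ + ‖a - ζ‖ := by
    calc ‖ζ‖ = ‖(a - P j) + P j - (a - ζ)‖ := by ring_nf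
      _ ≤ ‖(a - P j) + P j‖ + ‖a - ζ‖ := norm_sub_le _ _
      _ ≤ _ := by gcongr; exact norm_add_le _ _
  show 1 / 2 < ‖a - P j‖
  linarith [norm_P j]

lemma A_near (hb : ∀ j < 63, ∀ w ∈ Far j, ‖ψ j w‖ ≤ 1 / 1000) {ζ : ℂ} (hζ : ζ ∈ U 2) :
    ∀ j ≤ 63, ‖A ψ j ζ - ζ‖ ≤ j * (1 / 1000) := by
  intro j
  induction j with
  | zero => intro _; simp [A]
  | succ j ih =>
    intro hj
    have h1 := ih (by omega)
    have hj' : (j : ℝ) ≤ 63 := by exact_mod_cast (by omega : j ≤ 63)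
    have h3 := hb j (by omega) _ (far_A (j := j) (a := A ψ j ζ) hζ (by linarith))
    have e : A ψ (j + 1) ζ - ζ = (A ψ j ζ - ζ) + ψ j (A ψ j ζ) := by simp only [A]; ring
    rw [e]; push_cast
    linarith [norm_add_le (A ψ j ζ - ζ) (ψ j (A ψ j ζ))]

lemma A_near' (hb : ∀ j < 63, ∀ w ∈ Far j, ‖ψ j w‖ ≤ 1 / 1000) {ζ : ℂ} (hζ : ζ ∈ U 2) {j : ℕ}
    (hj : j ≤ 63) : ‖A ψ j ζ - ζ‖ ≤ 1 / 10 := by
  have h1 := A_near hb hζ j hj
  have hj' : (j : ℝ) ≤ 63 := by exact_mod_cast hj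
  linarith

theorem solve (hφ : Phi φ) (hs : ∀ w ∈ U (1 / 2), ‖φ w‖ ≤ e0) :
    ∃ L : ℕ → ℂ → ℂ, (∀ j < 63, DifferentiableOn ℂ (L j) (Far j)) ∧
      (∀ j < 63, ∀ w ∈ Far j, ‖L j w‖ ≤ 1 / 1000) ∧ ∀ ζ ∈ U 2, res φ L ζ = 0 := by
  let Q : ℕ → (ℕ → ℂ → ℂ) → Prop := fun n ψ =>
    ∃ G ρ δ κ lam, Inv φ ψ G ρ δ (e0 / 2 ^ n) κ lam
  have hq : ∀ n ψ, ∃ ψ' : ℕ → ℂ → ℂ, Q n ψ → Q (n + 1) ψ' ∧
      ∀ j < 63, ∀ w ∈ Far j, ‖ψ' j w - ψ j w‖ ≤ e0 / 2 ^ n := by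
    intro n ψ
    by_cases hQ : Q n ψ
    · obtain ⟨G, ρ, δ, κ, lam, h⟩ := hQ
      obtain ⟨ψ', G', h1, h2⟩ := h.step hφ
      rw [div_div, ← pow_succ] at h1
      exact ⟨ψ', fun _ => ⟨⟨G', _, _, _, _, h1⟩, h2⟩⟩
    · exact ⟨ψ, fun h => absurd h hQ⟩
  choose f hf using hq
  let s : ℕ → ℕ → ℂ → ℂ := fun n => Nat.rec (fun _ _ => 0) f n
  have hsQ : ∀ n, Q n (s n) := by
    intro n
    induction n with
    | zero =>
      have := Inv.init hs
      rw [show e0 = e0 / 2 ^ 0 by simp] at this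
      exact ⟨_, _, _, _, _, this⟩
    | succ n ih => exact (hf n _ ih).1
  have hsd : ∀ j < 63, ∀ w ∈ Far j, ∀ n, dist (s n j w) (s (n + 1) j w) ≤ 2 * e0 / 2 / 2 ^ n := by
    intro j hj w hw n
    rw [dist_comm, dist_eq_norm, show 2 * e0 / 2 = e0 by ring]
    exact (hf n _ (hsQ n)).2 j hj w hw
  let L : ℕ → ℂ → ℂ := fun j w => limUnder atTop (fun n => s n j w)
  have hL : ∀ j < 63, ∀ w ∈ Far j, Tendsto (fun n => s n j w) atTop (𝓝 (L j w)) :=
    fun j hj w hw => (cauchySeq_of_le_geometric_two (hsd j hj w hw)).tendsto_limUnder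
  have hg : Tendsto (fun n : ℕ => 2 * e0 / 2 ^ n) atTop (𝓝 0) :=
    tendsto_const_nhds.div_atTop (tendsto_pow_atTop_atTop_of_one_lt one_lt_two)
  have hu : ∀ j < 63, TendstoUniformlyOn (fun n => s n j) (L j) atTop (Far j) := by
    intro j hj
    rw [Metric.tendstoUniformlyOn_iff]
    intro η hη
    filter_upwards [hg.eventually (gt_mem_nhds hη)] with n hn w hw
    rw [dist_comm]
    exact lt_of_le_of_lt
      (dist_le_of_le_geometric_two_of_tendsto (hsd j hj w hw) (hL j hj w hw) n) hn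
  have hb : ∀ n, ∀ j < 63, ∀ w ∈ Far j, ‖s n j w‖ ≤ 1 / 1000 := by
    intro n j hj w hw
    obtain ⟨G, ρ, δ, κ, lam, h⟩ := hsQ n
    linarith [h.fb j hj w hw, h.k]
  have hLb : ∀ j < 63, ∀ w ∈ Far j, ‖L j w‖ ≤ 1 / 1000 := fun j hj w hw =>
    le_of_tendsto' (hL j hj w hw).norm (fun n => hb n j hj w hw)
  have hLd : ∀ j < 63, DifferentiableOn ℂ (L j) (Far j) := by
    intro j hj
    refine (hu j hj).tendstoLocallyUniformlyOn.differentiableOn
      (Eventually.of_forall fun n => ?_) (Far_open j)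
    obtain ⟨G, ρ, δ, κ, lam, h⟩ := hsQ n
    exact (h.dψ j hj).mono (h.far j hj)
  have hc : ∀ j < 63, ∀ (x : ℕ → ℂ) (y : ℂ), y ∈ Far j → Tendsto x atTop (𝓝 y) →
      Tendsto (fun n => s n j (x n)) atTop (𝓝 (L j y)) := by
    intro j hj x y hy hx
    refine (hu j hj).tendsto_comp ((hLd j hj).continuousOn y hy) ?_
    rwa [(Far_open j).nhdsWithin_eq hy]
  refine ⟨L, hLd, hLb, fun ζ hζ => ?_⟩
  have hζ1 : ζ ∈ U 1 := U_mono (by norm_num) hζ
  have tA : ∀ j ≤ 63, Tendsto (fun n => A (s n) j ζ) atTop (𝓝 (A L j ζ)) := by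
    intro j
    induction j with
    | zero => intro _; exact tendsto_const_nhds
    | succ j ih =>
      intro hj
      have h1 := ih (by omega)
      exact h1.add (hc j hj _ _ (far_A hζ (A_near' hLb hζ (by omega))) h1)
  have tB : ∀ j ≤ 63, Tendsto (fun n => B (s n) j ζ) atTop (𝓝 (B L j ζ)) := by
    intro j
    induction j with
    | zero => intro _; exact tendsto_const_nhds
    | succ j ih =>
      intro hj
      have h1 := ih (by omega)
      exact h1.sub (hc j hj _ _ (far_ball hζ1 (B_near' hLb (by norm_num) le_rfl hζ1 (by omega))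
        (mem_ball_self (by norm_num))) (h1.const_sub _))
  have hm : B L 63 ζ ∈ U (1 / 2) :=
    B_half hζ1 (B_near' hLb (by norm_num) le_rfl hζ1 le_rfl) (mem_ball_self (by norm_num))
  have t1 : Tendsto (fun n => res φ (s n) ζ) atTop (𝓝 (res φ L ζ)) :=
    (((hφ.d.continuousOn.continuousAt ((U_open _).mem_nhds hm)).tendsto.comp (tB 63 le_rfl)).add
      (tB 63 le_rfl)).sub (tA 63 le_rfl)
  have t2 : Tendsto (fun n => res φ (s n) ζ) atTop (𝓝 0) := by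
    refine squeeze_zero_norm (fun n => ?_) hg
    obtain ⟨G, ρ, δ, κ, lam, h⟩ := hsQ n
    refine (h.rs ζ (U_mono (by linarith [h.n2, h.n3]) hζ)).trans ?_
    have := e0_pos
    gcongr; linarith
  exact tendsto_nhds_unique t1 t2

end Pool.Agent.H.MP_40a019_an
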