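import Pool.Agent.H.MP_40a019_an.D

open Set Filter Metric Complex Topology Bornology

namespace Pool.Agent.H.MP_40a019_an

def S : Submonoid (Function.End ℂ) where
  carrier := {f | AnalyticAt ℂ (f : ℂ → ℂ) 0 ∧ f 0 = 0}
  one_mem' := ⟨analyticAt_id, rfl⟩
  mul_mem' := by
    intro f g hf hg
    refine ⟨AnalyticAt.comp_of_eq hf.1 hg.1 hg.2, ?_⟩
    show f (g 0) = 0
    rw [hg.2, hf.2]

def fn (F : S) : ℂ → ℂ := F.1

lemma fn_an (F : S) : AnalyticAt ℂ (fn F) 0 := F.2.1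

lemma fn_zero (F : S) : fn F 0 = 0 := F.2.2

lemma fn_mul (F G : S) : fn (F * G) = fn F ∘ fn G := rfl

lemma fn_one : fn 1 = id := rfl

lemma fn_tend (F : S) : Tendsto (fn F) (𝓝 0) (𝓝 0) := by
  have := (fn_an F).continuousAt.tendsto
  rwa [fn_zero] at this

def cg : Con S where
  r a b := fn a =ᶠ[𝓝 0] fn b
  iseqv := ⟨fun _ => EventuallyEq.rfl, EventuallyEq.symm, EventuallyEq.trans⟩
  mul' := by
    intro a b c d h1 h2
    exact (h1.comp_tendsto (fn_tend c)).trans (h2.fun_comp _)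

abbrev M := cg.Quotient

lemma mk_eq {F G : S} : (F : M) = G ↔ fn F =ᶠ[𝓝 0] fn G := Con.eq cg

def In (n : ℕ) (x : M) : Prop :=
  ∃ l : List M, l.length = n ∧ (∀ t ∈ l, t * t = 1) ∧ l.prod = x

lemma In.one : In 0 1 := ⟨[], rfl, by simp, rfl⟩

lemma In.inv {t : M} (h : t * t = 1) : In 1 t := ⟨[t], rfl, by simpa using h, by simp⟩

lemma In.mul {m n : ℕ} {x y : M} (hx : In m x) (hy : In n y) : In (m + n) (x * y) := by
  obtain ⟨l, h1, h2, rfl⟩ := hx
  obtain ⟨l', h3, h4, rfl⟩ := hy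
  refine ⟨l ++ l', by simp [h1, h3], fun t ht => ?_, by simp⟩
  rcases List.mem_append.1 ht with h | h
  exacts [h2 t h, h4 t h]

lemma In.conj {n : ℕ} {x g g' : M} (hx : In n x) (h1 : g * g' = 1) (h2 : g' * g = 1) :
    In n (g * x * g') := by
  obtain ⟨l, h3, h4, rfl⟩ := hx
  have h5 : ∀ z, g' * (g * z) = z := fun z => by rw [← mul_assoc, h2, one_mul]
  refine ⟨l.map (fun t => g * t * g'), by simpa using h3, ?_, ?_⟩
  · intro t ht
    obtain ⟨u, hu, rfl⟩ := List.mem_map.1 ht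
    simp only [mul_assoc, h5]
    rw [← mul_assoc u, h4 u hu, one_mul, h1]
  · clear h3 h4
    induction l with
    | nil => simp [h1]
    | cons a l ih =>
      rw [List.map_cons, List.prod_cons, ih]
      simp only [List.prod_cons, mul_assoc, h5]

def Rep (x : M) (g : ℂ → ℂ) : Prop :=
  ∃ F : S, (F : M) = x ∧ ∀ᶠ w in cobounded ℂ, g w = (fn F w⁻¹)⁻¹

lemma Rep.congr {x : M} {g g' : ℂ → ℂ} (h : Rep x g) (e : g =ᶠ[cobounded ℂ] g') : Rep x g' := by
  obtain ⟨F, h1, h2⟩ := h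
  refine ⟨F, h1, ?_⟩
  filter_upwards [h2, e] with w h3 h4
  rw [← h4, h3]

lemma Rep.one : Rep 1 id := ⟨1, rfl, Eventually.of_forall fun w => by simp [fn_one]⟩

lemma Rep.mul {x y : M} {g h : ℂ → ℂ} (hx : Rep x g) (hy : Rep y h)
    (ht : Tendsto h (cobounded ℂ) (cobounded ℂ)) : Rep (x * y) (g ∘ h) := by
  obtain ⟨F, rfl, h1⟩ := hx
  obtain ⟨G, rfl, h2⟩ := hy
  refine ⟨F * G, rfl, ?_⟩
  filter_upwards [ht.eventually h1, h2] with w h3 h4
  simp only [Function.comp, fn_mul]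
  rw [h3, h4, inv_inv]

lemma Rep.uniq {x y : M} {g : ℂ → ℂ} (hx : Rep x g) (hy : Rep y g) : x = y := by
  obtain ⟨F, rfl, h1⟩ := hx
  obtain ⟨G, rfl, h2⟩ := hy
  rw [mk_eq, ← nhdsNE_sup_pure]
  refine eventually_sup.2 ⟨?_, by simp [fn_zero]⟩
  filter_upwards [tendsto_inv₀_nhdsNE_zero.eventually h1, tendsto_inv₀_nhdsNE_zero.eventually h2]
    with z h3 h4
  rw [h3, inv_inv] at h4
  exact inv_injective h4

lemma Rep.eq {x : M} {g g' : ℂ → ℂ} (hx : Rep x g) (hy : Rep x g') : g =ᶠ[cobounded ℂ] g' := by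
  obtain ⟨F, rfl, h1⟩ := hx
  obtain ⟨G, e, h2⟩ := hy
  filter_upwards [h1, h2, tendsto_inv₀_cobounded.eventually (mk_eq.1 e)] with w h3 h4 h5
  rw [h3, h4, h5]

lemma unit_of (F : S) (h : deriv (fn F) 0 ≠ 0) : ∃ y : M, (F : M) * y = 1 ∧ y * F = 1 := by
  have hs := (fn_an F).hasStrictDerivAt
  have h1 := (fn_an F).analyticAt_localInverse h
  have h2 := hs.eventually_left_inverse h
  have h3 := hs.eventually_right_inverse h
  have h4 := h2.self_of_nhds
  rw [fn_zero] at h1 h3 h4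
  exact ⟨((⟨_, h1, h4⟩ : S) : M), mk_eq.2 h3, mk_eq.2 h2⟩

lemma rep_exists {g : ℂ → ℂ} {s : ℂ} (hs : s ≠ 0) (hd : ∀ᶠ w in cobounded ℂ, DifferentiableAt ℂ g w)
    (ht : Tendsto (fun w => g w / w) (cobounded ℂ) (𝓝 s)) :
    ∃ x y : M, Rep x g ∧ x * y = 1 ∧ y * x = 1 := by
  classical
  have hc := tend_cob hs ht
  set F : ℂ → ℂ := Function.update (fun z => (g z⁻¹)⁻¹) 0 0 with hF
  have F0 : F 0 = 0 := by simp [hF]
  have e : F =ᶠ[𝓝[≠] 0] fun z => (g z⁻¹)⁻¹ := by
    filter_upwards [self_mem_nhdsWithin] with z hz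
    exact Function.update_of_ne hz _ _
  have hD : HasDerivAt F s⁻¹ 0 := by
    rw [hasDerivAt_iff_tendsto_slope_zero]
    refine ((ht.comp tendsto_inv₀_nhdsNE_zero).inv₀ hs).congr' ?_
    filter_upwards [e] with z hz
    simp only [Function.comp, zero_add, F0, sub_zero, smul_eq_mul, hz]
    rw [inv_div, div_eq_mul_inv]
  have hA : AnalyticAt ℂ F 0 := by
    refine analyticAt_of_differentiable_on_punctured_nhds_of_continuousAt ?_ hD.continuousAt
    filter_upwards [self_mem_nhdsWithin, tendsto_inv₀_nhdsNE_zero.eventually hd,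
      (hc.comp tendsto_inv₀_nhdsNE_zero).eventually (eventually_ne_cobounded 0)] with z h1 h2 h3
    have h4 : DifferentiableAt ℂ (fun z => (g z⁻¹)⁻¹) z :=
      (h2.comp z (differentiableAt_inv h1)).inv h3
    refine h4.congr_of_eventuallyEq ?_
    filter_upwards [isOpen_ne.mem_nhds h1] with u hu
    exact Function.update_of_ne hu _ _
  obtain ⟨y, h1, h2⟩ := unit_of ⟨F, hA, F0⟩ (by
    show deriv F 0 ≠ 0
    rw [hD.deriv]; exact inv_ne_zero hs)
  refine ⟨_, y, ⟨⟨F, hA, F0⟩, rfl, ?_⟩, h1, h2⟩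
  filter_upwards [eventually_ne_cobounded 0] with w hw
  show g w = (F w⁻¹)⁻¹
  rw [hF, Function.update_of_ne (inv_ne_zero hw)]; simp

lemma aff_ratio (s p : ℂ) : Tendsto (fun w => (s * w + p) / w) (cobounded ℂ) (𝓝 s) :=
  tend_ratio (C := ‖p‖) (Eventually.of_forall fun w => by simp)

lemma rep_aff {s : ℂ} (hs : s ≠ 0) (p : ℂ) : ∃ x : M, Rep x (fun w => s * w + p) := by
  obtain ⟨x, -, h, -⟩ := rep_exists (g := fun w => s * w + p) hs
    (Eventually.of_forall fun w => by fun_prop) (aff_ratio s p)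
  exact ⟨x, h⟩

lemma sub_cob (p : ℂ) : Tendsto (fun w => p - w) (cobounded ℂ) (cobounded ℂ) :=
  (tend_cob (by norm_num) (aff_ratio (-1) p)).congr (fun w => by ring)

lemma rep_sg (p : ℂ) : ∃ x : M, Rep x (fun w => p - w) ∧ x * x = 1 := by
  obtain ⟨x, h⟩ := rep_aff (s := -1) (by norm_num) p
  have h1 : Rep x (fun w => p - w) := h.congr (Eventually.of_forall fun w => by simp only; ring)
  exact ⟨x, h1, ((h1.mul h1 (sub_cob p)).congr (Eventually.of_forall fun w => by simp)).uniq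
    Rep.one⟩

lemma near_cob {X : ℂ → ℂ} {ρ : ℝ} (h : ∀ ζ ∈ U ρ, ‖X ζ - ζ‖ ≤ 1 / 10) :
    Tendsto X (cobounded ℂ) (cobounded ℂ) := by
  refine tend_cob one_ne_zero (tend_ratio (C := 1 / 10) ?_)
  filter_upwards [ev_U ρ] with ζ hζ
  simpa using h ζ hζ

lemma chain {L : ℕ → ℂ → ℂ} (hd : ∀ j < 63, DifferentiableOn ℂ (L j) (Far j))
    (hb : ∀ j < 63, ∀ w ∈ Far j, ‖L j w‖ ≤ 1 / 1000) :
    ∀ j ≤ 63, ∃ a b h b' : M, Rep a (A L j) ∧ Rep b (B L j) ∧ In (2 * j) h ∧ h * b = a ∧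
      b * b' = 1 := by
  intro j
  induction j with
  | zero => intro _; exact ⟨1, 1, 1, 1, Rep.one, Rep.one, In.one, by simp, by simp⟩
  | succ j ih =>
    intro hj
    obtain ⟨a, b, h, b', h1, h2, h3, h4, h5⟩ := ih (by omega)
    have hF : ∀ w ∈ U 2, w ∈ Far j := fun w hw => far_A hw (by simp)
    have hx : ∀ w ∈ U 2, ‖w + L j w - w‖ ≤ 1 / 10 := fun w hw => by
      rw [add_sub_cancel_left]; linarith [hb j hj w (hF w hw)]
    obtain ⟨x, y, h6, h7, h8⟩ := rep_exists (g := fun w => w + L j w) one_ne_zero (by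
      filter_upwards [ev_U 2] with w hw
      exact differentiableAt_id.add ((hd j hj).differentiableAt ((Far_open j).mem_nhds (hF w hw))))
      (tend_ratio (C := 1 / 10) (by
        filter_upwards [ev_U 2] with w hw
        simpa using hx w hw))
    obtain ⟨σ, h9, h10⟩ := rep_sg (P j)
    have tA := near_cob (fun ζ hζ => A_near' hb hζ (j := j) (by omega))
    have tB := near_cob (fun ζ hζ => B_near' hb (by norm_num) le_rfl hζ (j := j) (by omega))
    have t1 := (sub_cob (P j)).comp tB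
    have r1 := h9.mul (h6.mul (h9.mul h2 tB) t1) ((near_cob hx).comp t1)
    have k1 : ∀ z, x * (y * z) = z := fun z => by rw [← mul_assoc, h7, one_mul]
    have k2 : ∀ z, y * (x * z) = z := fun z => by rw [← mul_assoc, h8, one_mul]
    have k3 : ∀ z, σ * (σ * z) = z := fun z => by rw [← mul_assoc, h10, one_mul]
    have k4 : ∀ z, b * (b' * z) = z := fun z => by rw [← mul_assoc, h5, one_mul]
    refine ⟨x * a, _, x * h * y * (x * σ * y) * σ, b' * (σ * (y * σ)), h6.mul h1 tA,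
      r1.congr (Eventually.of_forall fun w => by simp only [Function.comp, B]; ring),
      ((h3.conj h7 h8).mul ((In.inv h10).conj h7 h8)).mul (In.inv h10), ?_, ?_⟩
    · simp only [mul_assoc, k2, k3, h4]
    · simp only [mul_assoc, k1, k3, k4, h10]

lemma small {φ : ℂ → ℂ} (hφ : Phi φ) (hs : ∀ w ∈ U (1 / 2), ‖φ w‖ ≤ e0) {x : M}
    (hx : Rep x (fun w => w + φ w)) : In 126 x := by
  obtain ⟨L, hd, hb, h0⟩ := solve hφ hs
  obtain ⟨a, b, h, b', h1, h2, h3, h4, h5⟩ := chain hd hb 63 le_rfl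
  have tB := near_cob (fun ζ hζ => B_near' hb (by norm_num) le_rfl hζ (j := 63) le_rfl)
  have e : x * b = a := by
    refine ((hx.mul h2 tB).congr ?_).uniq h1
    filter_upwards [ev_U 2] with ζ hζ
    have := h0 ζ hζ
    simp only [res] at this
    simp only [Function.comp]
    linear_combination this
  have : x = h := by
    calc x = x * b * b' := by rw [mul_assoc, h5, mul_one]
      _ = h := by rw [e, ← h4, mul_assoc, h5, mul_one]
  rw [this]; exact h3

def J (g : ℂ → ℂ) (s q c : ℂ) : Prop :=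
  Tendsto (fun w => w * (g w - s * w - q)) (cobounded ℂ) (𝓝 c)

lemma J.lim {g : ℂ → ℂ} {s q c : ℂ} (h : J g s q c) :
    Tendsto (fun w => g w - s * w - q) (cobounded ℂ) (𝓝 0) := by
  have := Tendsto.mul h (tendsto_inv₀_cobounded (α := ℂ))
  rw [mul_zero] at this
  refine this.congr' ?_
  filter_upwards [eventually_ne_cobounded 0] with w hw
  field_simp

lemma J.ratio {g : ℂ → ℂ} {s q c : ℂ} (h : J g s q c) :
    Tendsto (fun w => g w / w) (cobounded ℂ) (𝓝 s) := by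
  have := (h.lim.mul (tendsto_inv₀_cobounded (α := ℂ))).add (aff_ratio s q)
  rw [mul_zero, zero_add] at this
  refine this.congr' ?_
  filter_upwards [eventually_ne_cobounded 0] with w hw
  field_simp; ring

lemma J.comp {g h : ℂ → ℂ} {s q c s' q' c' : ℂ} (hg : J g s q c) (hh : J h s' q' c')
    (hs : s' ≠ 0) : J (g ∘ h) (s * s') (s * q' + q) (c / s' + s * c') := by
  have := (tend_comp (g := fun w => g w - s * w - q) hs hg hh.ratio).add (Tendsto.const_mul s hh)
  refine this.congr (fun w => ?_)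
  simp only [Function.comp]; ring

lemma J.congr {g g' : ℂ → ℂ} {s q c : ℂ} (h : J g s q c) (e : g =ᶠ[cobounded ℂ] g') :
    J g' s q c := by
  refine Tendsto.congr' ?_ h
  filter_upwards [e] with w hw
  rw [hw]

lemma J.of_id {s q c : ℂ} (h : J id s q c) : s = 1 ∧ c = 0 := by
  have h1 : s = 1 := by
    refine tendsto_nhds_unique h.ratio (tendsto_const_nhds.congr' ?_)
    filter_upwards [eventually_ne_cobounded 0] with w hw
    simp [hw]
  subst h1
  have h2 : q = 0 := by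
    have := h.lim
    simp only [id, one_mul, sub_self, zero_sub] at this
    simpa using tendsto_nhds_unique tendsto_const_nhds this
  subst h2
  refine ⟨rfl, tendsto_nhds_unique h ?_⟩
  simp

lemma an_dslope {f : ℂ → ℂ} (h : AnalyticAt ℂ f 0) : AnalyticAt ℂ (dslope f 0) 0 := by
  obtain ⟨p, hp⟩ := h
  exact ⟨_, hp.has_fpower_series_dslope_fslope⟩

lemma jet_exists (F : S) (h : deriv (fn F) 0 ≠ 0) :
    ∃ s q c, s ≠ 0 ∧ J (fun w => (fn F w⁻¹)⁻¹) s q c := by
  have h1 := an_dslope (fn_an F)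
  have h0 : dslope (fn F) 0 0 ≠ 0 := by rwa [dslope_same]
  have h2 : AnalyticAt ℂ (fun z => (dslope (fn F) 0 z)⁻¹) 0 := h1.inv h0
  set v := fun z => (dslope (fn F) 0 z)⁻¹ with hv
  have h3 := an_dslope h2
  have h4 := an_dslope h3
  refine ⟨v 0, dslope v 0 0, dslope (dslope v 0) 0 0, inv_ne_zero h0, ?_⟩
  refine (h4.continuousAt.tendsto.comp tendsto_inv₀_cobounded).congr' ?_
  filter_upwards [eventually_ne_cobounded 0] with w hw
  have hz : w⁻¹ ≠ 0 := inv_ne_zero hw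
  have e1 : (fn F w⁻¹)⁻¹ = w * v w⁻¹ := by
    simp only [hv, dslope_of_ne _ hz, slope_def_field, fn_zero, sub_zero]
    rw [inv_div, div_eq_mul_inv, ← mul_assoc, mul_inv_cancel₀ hw, one_mul]
  simp only [Function.comp, e1]
  rw [dslope_of_ne _ hz, slope_def_field, dslope_of_ne _ hz, slope_def_field]
  simp only [sub_zero, div_inv_eq_mul]; ring

lemma invol_jet {x : M} (hx : x * x = 1) : ∃ g s q, Rep x g ∧ J g s q 0 ∧ s * s = 1 := by
  obtain ⟨F, rfl⟩ := Con.mk'_surjective x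
  have e : fn F ∘ fn F =ᶠ[𝓝 0] id := mk_eq.1 hx
  have hd := (fn_an F).differentiableAt.hasDerivAt
  have h : deriv (fn F) 0 ≠ 0 := by
    intro h0
    have h1 : HasDerivAt (fn F ∘ fn F) (deriv (fn F) 0 * deriv (fn F) 0) 0 :=
      HasDerivAt.comp_of_eq 0 hd hd (fn_zero F).symm
    have h2 := (h1.congr_of_eventuallyEq e.symm).unique (hasDerivAt_id 0)
    simp [h0] at h2
  obtain ⟨s, q, c, hs, hJ⟩ := jet_exists F h
  have hR : Rep (F : M) (fun w => (fn F w⁻¹)⁻¹) := ⟨F, rfl, Eventually.of_forall fun _ => rfl⟩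
  have h1 := hR.mul hR (tend_cob hs hJ.ratio)
  have hx' : (F : M) * F = 1 := hx
  rw [hx'] at h1
  obtain ⟨h2, h3⟩ := ((hJ.comp hJ hs).congr (h1.eq Rep.one)).of_id
  have h4 : c = 0 := by
    field_simp at h3
    linear_combination 1 / 2 * h3 - c / 2 * h2
  exact ⟨_, s, q, hR, h4 ▸ hJ, h2⟩

lemma prod_jet (l : List M) (hl : ∀ t ∈ l, t * t = 1) :
    ∃ g s q, Rep l.prod g ∧ J g s q 0 ∧ s * s = 1 := by
  induction l with
  | nil => exact ⟨id, 1, 0, Rep.one, by simp [J], by simp⟩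
  | cons a l ih =>
    obtain ⟨g, s, q, h1, h2, h3⟩ := invol_jet (hl a (by simp))
    obtain ⟨g', s', q', h4, h5, h6⟩ := ih (fun t ht => hl t (by simp [ht]))
    have hs : s' ≠ 0 := fun e => by simp [e] at h6
    refine ⟨_, s * s', s * q' + q, h1.mul h4 (tend_cob hs h5.ratio), ?_, ?_⟩
    · simpa using h2.comp h5 hs
    · linear_combination s' * s' * h3 + h6

lemma tangent {x : M} {g : ℂ → ℂ} (hx : Rep x g) (hJ : J g 1 0 0) : In 126 x := by
  obtain ⟨F, rfl, h1⟩ := hx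
  set g0 : ℂ → ℂ := fun w => (fn F w⁻¹)⁻¹ with hg0
  have hR : Rep (F : M) g0 := ⟨F, rfl, Eventually.of_forall fun _ => rfl⟩
  have hJ0 : J g0 1 0 0 := hJ.congr h1
  have h2 : ∀ᶠ w in cobounded ℂ, DifferentiableAt ℂ g0 w ∧ ‖g0 w - w‖ ≤ e0 := by
    have h3 := hJ0.lim.norm
    rw [norm_zero] at h3
    filter_upwards [eventually_ne_cobounded 0, h3.eventually (ge_mem_nhds e0_pos),
      (tend_cob one_ne_zero hJ0.ratio).eventually (eventually_ne_cobounded 0),
      tendsto_inv₀_cobounded.eventually (fn_an F).eventually_analyticAt] with w a1 a2 a3 a4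
    refine ⟨(a4.differentiableAt.comp w (differentiableAt_inv a1)).inv
      (fun e => a3 (by simp only [hg0]; rw [show fn F w⁻¹ = 0 from e, inv_zero])), ?_⟩
    simpa using a2
  obtain ⟨R0, -, hR0⟩ := (Filter.hasBasis_cobounded_norm.eventually_iff).1 h2
  set R := max R0 1 with hRdef
  have R1 : 1 ≤ R := le_max_right _ _
  set c : ℂ := ((2 * R : ℝ) : ℂ) with hc
  have nc : ‖c‖ = 2 * R := by rw [hc, Complex.norm_real, Real.norm_of_nonneg (by linarith)]
  have c0 : c ≠ 0 := norm_pos_iff.1 (by linarith)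
  have hw : ∀ w ∈ U (1 / 2), DifferentiableAt ℂ g0 (c * w) ∧ ‖g0 (c * w) - c * w‖ ≤ e0 := by
    intro w hw
    have h3 : 1 / 2 < ‖w‖ := hw
    refine hR0 (x := c * w) ?_
    show R0 ≤ ‖c * w‖
    rw [norm_mul, nc]; nlinarith [le_max_left R0 1]
  have tc : Tendsto (fun w => c * w + 0) (cobounded ℂ) (cobounded ℂ) := tend_cob c0 (aff_ratio c 0)
  have hs : ∀ w ∈ U (1 / 2), ‖c⁻¹ * (g0 (c * w) - c * w)‖ ≤ e0 := by
    intro w h
    have h4 : ‖c⁻¹‖ ≤ 1 := by rw [norm_inv, nc]; exact inv_le_one_of_one_le₀ (by linarith)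
    rw [norm_mul]
    calc _ ≤ 1 * e0 := mul_le_mul h4 (hw w h).2 (norm_nonneg _) zero_le_one
      _ = e0 := one_mul _
  have hφ : Phi (fun w => c⁻¹ * (g0 (c * w) - c * w)) := by
    refine ⟨fun w h => ?_, fun w h => (hs w h).trans (by unfold e0; norm_num), ?_⟩
    · have h4 : DifferentiableAt ℂ (fun w => c * w) w := by fun_prop
      exact ((((hw w h).1.comp w h4).sub h4).const_mul _).differentiableWithinAt
    · have := (Tendsto.comp hJ0 tc).const_mul (c⁻¹ * c⁻¹)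
      rw [mul_zero] at this
      refine this.congr (fun w => ?_)
      simp only [Function.comp]; field_simp; ring
  obtain ⟨u, hu⟩ := rep_aff c0 0
  obtain ⟨v, hv⟩ := rep_aff (inv_ne_zero c0) 0
  have tv : Tendsto (fun w => c⁻¹ * w + 0) (cobounded ℂ) (cobounded ℂ) :=
    tend_cob (inv_ne_zero c0) (aff_ratio _ 0)
  have uv : u * v = 1 := ((hu.mul hv tv).congr (Eventually.of_forall fun w => by
    simp [c0])).uniq Rep.one
  have vu : v * u = 1 := ((hv.mul hu tc).congr (Eventually.of_forall fun w => by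
    simp [c0])).uniq Rep.one
  have r := hv.mul (hR.mul hu tc) ((tend_cob one_ne_zero hJ0.ratio).comp tc)
  have i := (small hφ hs (r.congr (Eventually.of_forall fun w => by
    simp only [Function.comp, add_zero]; field_simp; ring))).conj uv vu
  rwa [← mul_assoc u, uv, one_mul, mul_assoc, uv, mul_one] at i

theorem main (l : List M) (hl : ∀ t ∈ l, t * t = 1) : In 128 l.prod := by
  obtain ⟨g, s, q, h1, h2, h3⟩ := prod_jet l hl
  have hs : s ≠ 0 := fun e => by simp [e] at h3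
  have tg := tend_cob hs h2.ratio
  obtain ⟨σ, a1, a2⟩ := rep_sg q
  obtain ⟨τ, b1, b2⟩ := rep_sg 0
  rcases mul_self_eq_one_iff.1 h3 with rfl | rfl
  · have i := tangent (b1.mul (a1.mul h1 tg) ((sub_cob q).comp tg))
      (Tendsto.congr (fun w => by simp only [Function.comp]; ring) h2)
    have := (In.inv a2).mul ((In.inv b2).mul i)
    rwa [← mul_assoc τ, b2, one_mul, ← mul_assoc, a2, one_mul] at this
  · have i := tangent (a1.mul h1 tg) (by
      have := Tendsto.neg h2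
      rw [neg_zero] at this
      exact this.congr (fun w => by simp only [Function.comp]; ring))
    have := (In.inv a2).mul ((In.inv (one_mul 1)).mul i)
    rwa [one_mul, ← mul_assoc, a2, one_mul] at this

lemma prod_fn (l : List S) : fn l.prod = (l.map fn).foldr (· ∘ ·) id := by
  induction l with
  | nil => rfl
  | cons a l ih => simp only [List.prod_cons, List.map_cons, List.foldr_cons, fn_mul, ih]

theorem final (L : List (ℂ → ℂ))
    (hL : ∀ τ ∈ L, AnalyticAt ℂ τ 0 ∧ τ 0 = 0 ∧ τ ∘ τ =ᶠ[𝓝 0] id) :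
    ∃ L' : List (ℂ → ℂ), L'.length = 128 ∧
      (∀ τ ∈ L', AnalyticAt ℂ τ 0 ∧ τ 0 = 0 ∧ τ ∘ τ =ᶠ[𝓝 0] id) ∧
      L'.foldr (· ∘ ·) id =ᶠ[𝓝 0] L.foldr (· ∘ ·) id := by
  obtain ⟨l, rfl⟩ : ∃ l : List S, l.map fn = L := by
    induction L with
    | nil => exact ⟨[], rfl⟩
    | cons a L ih =>
      obtain ⟨l, h⟩ := ih (fun τ hτ => hL τ (by simp [hτ]))
      have := hL a (by simp)
      exact ⟨⟨a, this.1, this.2.1⟩ :: l, by rw [List.map_cons, h]; rfl⟩
  obtain ⟨m, h1, h2, h3⟩ := main (l.map cg.mk') (by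
    intro t ht
    obtain ⟨F, hF, rfl⟩ := List.mem_map.1 ht
    exact (mk_eq (F := F * F) (G := 1)).2 (hL _ (List.mem_map_of_mem hF)).2.2)
  obtain ⟨l', rfl⟩ := (Con.mk'_surjective (c := cg)).list_map m
  refine ⟨l'.map fn, by simpa using h1, fun τ hτ => ?_, ?_⟩
  · obtain ⟨F, hF, rfl⟩ := List.mem_map.1 hτ
    exact ⟨fn_an F, fn_zero F,
      (mk_eq (F := F * F) (G := 1)).1 (h2 _ (List.mem_map_of_mem hF))⟩
  · rw [← prod_fn, ← prod_fn]
    rw [← map_list_prod, ← map_list_prod] at h3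
    exact mk_eq.1 h3

end Pool.Agent.H.MP_40a019_an
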